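import Pool.Agent.OntoPHP.Tuples

set_option autoImplicit false
set_option linter.unusedSectionVars false
set_option linter.unusedVariables false

namespace Pool.Agent.OntoPHP

open Finset
open scoped Classical

section

variable {F C : Type} [Field F] [Fintype C] {K : ℕ}

/-- Good tuples: injective and avoiding `Q`. -/
def Good (Q : Finset C) (i : Fin K → C) : Prop := Function.Injective i ∧ ∀ t, i t ∉ Q

lemma Grp.notMem_iff {χ : C → Bool} {Q : Finset C} {π : Equiv.Perm C} (hπ : Grp χ Q π) (x : C) :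
    π x ∈ Q ↔ x ∈ Q := by
  constructor
  · intro h
    have := π.injective (hπ.2 _ h)
    rwa [this] at h
  · intro h
    rw [hπ.2 _ h]; exact h

lemma good_act {χ : C → Bool} {Q : Finset C} {π : Equiv.Perm C} (hπ : Grp χ Q π)
    (i : Fin K → C) : Good Q (fun t => π (i t)) ↔ Good Q i := by
  unfold Good
  simp only [hπ.notMem_iff]
  have : Function.Injective (fun t => π (i t)) ↔ Function.Injective i :=
    π.injective.of_comp_iff i
  rw [this]

/-- Functions supported on good tuples. -/
def Vg (F : Type) [Field F] (K : ℕ) (Q : Finset C) : Submodule F ((Fin K → C) → F) where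
  carrier := {u | ∀ i, ¬ Good Q i → u i = 0}
  add_mem' := by intro a b ha hb i hi; simp [ha i hi, hb i hi]
  zero_mem' := by intro i _; rfl
  smul_mem' := by intro c a ha i hi; simp [ha i hi]

/-- Functions supported on bad tuples. -/
def Vb (F : Type) [Field F] (K : ℕ) (Q : Finset C) : Submodule F ((Fin K → C) → F) where
  carrier := {u | ∀ i, Good Q i → u i = 0}
  add_mem' := by intro a b ha hb i hi; simp [ha i hi, hb i hi]
  zero_mem' := by intro i _; rfl
  smul_mem' := by intro c a ha i hi; simp [ha i hi]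

/-- Restriction to bad tuples. -/
noncomputable def Rb (Q : Finset C) : ((Fin K → C) → F) →ₗ[F] ((Fin K → C) → F) where
  toFun u := fun i => if Good Q i then 0 else u i
  map_add' u v := by ext i; simp only [Pi.add_apply]; split_ifs <;> simp
  map_smul' c u := by ext i; simp only [Pi.smul_apply, RingHom.id_apply]; split_ifs <;> simp

lemma Inv.inf {χ : C → Bool} {Q : Finset C} {U U' : Submodule F ((Fin K → C) → F)}
    (h : Inv χ Q U) (h' : Inv χ Q U') : Inv χ Q (U ⊓ U') :=
  fun π hπ u hu => ⟨h π hπ u hu.1, h' π hπ u hu.2⟩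

lemma inv_Vg (χ : C → Bool) (Q : Finset C) : Inv χ Q (Vg F K Q) := by
  intro π hπ u hu i hi
  exact hu _ (fun h => hi ((good_act hπ i).mp h))

lemma inv_Vb (χ : C → Bool) (Q : Finset C) : Inv χ Q (Vb F K Q) := by
  intro π hπ u hu i hi
  exact hu _ ((good_act hπ i).mpr hi)

lemma inv_map {K' : ℕ} {χ : C → Bool} {Q : Finset C} {U : Submodule F ((Fin K → C) → F)}
    (h : Inv χ Q U) (f : ((Fin K → C) → F) →ₗ[F] ((Fin K' → C) → F))
    (hf : ∀ π, Grp χ Q π → ∀ u, act π (f u) = f (act π u)) : Inv χ Q (U.map f) := by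
  rintro π hπ _ ⟨u, hu, rfl⟩
  rw [hf π hπ u]
  exact Submodule.mem_map_of_mem (h π hπ u hu)

lemma inv_ker {K' : ℕ} {χ : C → Bool} {Q : Finset C}
    (f : ((Fin K → C) → F) →ₗ[F] ((Fin K' → C) → F))
    (hf : ∀ π, Grp χ Q π → ∀ u, act π (f u) = f (act π u)) : Inv χ Q (LinearMap.ker f) := by
  intro π hπ u hu
  rw [LinearMap.mem_ker] at hu ⊢
  rw [← hf π hπ u, hu, map_zero]

/-- The insertion maps on tuples. -/
def phi (Q : Finset C) (x : Fin (K + 1) × ({q // q ∈ Q} ⊕ Fin K)) (g : Fin K → C) :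
    Fin (K + 1) → C :=
  Fin.insertNth (α := fun _ => C) x.1 (match x.2 with
    | Sum.inl q => q.1
    | Sum.inr s => g s) g

/-- Pull back of functions along the insertion maps. -/
def pull (Q : Finset C) (x : Fin (K + 1) × ({q // q ∈ Q} ⊕ Fin K)) :
    ((Fin (K + 1) → C) → F) →ₗ[F] ((Fin K → C) → F) where
  toFun u := fun g => u (phi Q x g)
  map_add' _ _ := rfl
  map_smul' _ _ := rfl

lemma phi_act {χ : C → Bool} {Q : Finset C} {π : Equiv.Perm C} (hπ : Grp χ Q π)
    (x : Fin (K + 1) × ({q // q ∈ Q} ⊕ Fin K)) (g : Fin K → C) :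
    (fun t => π (phi Q x g t)) = phi Q x (fun t => π (g t)) := by
  obtain ⟨t₀, q | s⟩ := x
  · funext t
    unfold phi
    refine Fin.succAboveCases t₀ ?_ ?_ t
    · simp only [Fin.insertNth_apply_same]
      exact hπ.2 _ q.2
    · intro j
      simp only [Fin.insertNth_apply_succAbove]
  · funext t
    unfold phi
    refine Fin.succAboveCases t₀ ?_ ?_ t
    · simp only [Fin.insertNth_apply_same]
    · intro j
      simp only [Fin.insertNth_apply_succAbove]

lemma exists_phi {Q : Finset C} {i : Fin (K + 1) → C} (hi : ¬ Good Q i) :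
    ∃ x : Fin (K + 1) × ({q // q ∈ Q} ⊕ Fin K), ∃ g, phi Q x g = i := by
  unfold Good at hi
  rw [not_and_or] at hi
  rcases hi with hi | hi
  · rw [Function.not_injective_iff] at hi
    obtain ⟨a, b, hab, hne⟩ := hi
    obtain ⟨s, hs⟩ := Fin.exists_succAbove_eq (x := b) (y := a) (Ne.symm hne)
    refine ⟨(a, Sum.inr s), fun j => i (a.succAbove j), ?_⟩
    funext t
    unfold phi
    refine Fin.succAboveCases a ?_ ?_ t
    · simp only [Fin.insertNth_apply_same]
      rw [hs, hab]
    · intro j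
      simp only [Fin.insertNth_apply_succAbove]
  · push Not at hi
    obtain ⟨a, ha⟩ := hi
    refine ⟨(a, Sum.inl ⟨i a, ha⟩), fun j => i (a.succAbove j), ?_⟩
    funext t
    unfold phi
    refine Fin.succAboveCases a ?_ ?_ t
    · simp only [Fin.insertNth_apply_same]
    · intro j
      simp only [Fin.insertNth_apply_succAbove]

/-- Chains of subspaces supported on bad tuples. -/
lemma bad_chain {χ : C → Bool} {Q : Finset C} {L q : ℕ} (hq : Q.card ≤ q)
    (hL : ∀ c : ℕ → Submodule F ((Fin K → C) → F), Monotone c → (∀ n, Inv χ Q (c n)) →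
      ∀ n, jumps c n ≤ L)
    (c : ℕ → Submodule F ((Fin (K + 1) → C) → F)) (hc : Monotone c) (hI : ∀ n, Inv χ Q (c n))
    (hb : ∀ n, c n ≤ Vb F (K + 1) Q) (n : ℕ) :
    jumps c n ≤ ((K + 1) * (q + K)) * L := by
  have hpull : ∀ x : Fin (K + 1) × ({q // q ∈ Q} ⊕ Fin K), ∀ π, Grp χ Q π →
      ∀ u : (Fin (K + 1) → C) → F, act π (pull Q x u) = pull Q x (act π u) := by
    intro x π hπ u
    ext g
    simp only [act_apply, pull, LinearMap.coe_mk, AddHom.coe_mk]
    rw [phi_act hπ]
  have := jumps_family (F := F) (fun x : Fin (K + 1) × ({q // q ∈ Q} ⊕ Fin K) => pull (F := F) Q x) L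
    (fun c => Monotone c ∧ ∀ n, Inv χ Q (c n)) (fun c => Monotone c ∧ ∀ n, Inv χ Q (c n))
    (fun c h => h.1)
    (fun c h x => ⟨fun a b hab => inf_le_inf_right _ (h.1 hab),
      fun n => (h.2 n).inf (inv_ker _ (hpull x))⟩)
    (fun c h x => ⟨fun a b hab => Submodule.map_mono (h.1 hab),
      fun n => inv_map (h.2 n) _ (hpull x)⟩)
    (fun c h n => hL c h.1 h.2 n) Finset.univ c ⟨hc, hI⟩ ?_ n
  · refine le_trans this ?_
    apply Nat.mul_le_mul_right
    rw [Finset.card_univ, Fintype.card_prod, Fintype.card_sum, Fintype.card_fin, Fintype.card_fin,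
      Fintype.card_coe]
    apply Nat.mul_le_mul_left
    omega
  · intro n u hu hx
    ext i
    by_cases hi : Good Q i
    · exact hb n hu i hi
    · obtain ⟨x, g, rfl⟩ := exists_phi hi
      exact congrFun (hx x (Finset.mem_univ _)) g

end

end Pool.Agent.OntoPHP
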