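import Pool.Agent.OntoPHP.Chain

set_option autoImplicit false
set_option linter.unusedSectionVars false
set_option linter.unusedVariables false

namespace Pool.Agent.OntoPHP

open Finset
open scoped Classical

section

variable {F C : Type} [Field F] [Fintype C] {K : ℕ}

/-- Choosing `K` fresh elements of each colour. -/
lemma exists_fresh (χ : C → Bool) (Q : Finset C) (K : ℕ)
    (h : ∀ b, Q.card + K ≤ (Finset.univ.filter (fun x => χ x = b)).card) :
    ∃ ζ : Bool → Fin K → C, (∀ b, Function.Injective (ζ b)) ∧ (∀ b t, χ (ζ b t) = b) ∧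
      ∀ b t, ζ b t ∉ Q := by
  have key : ∀ b, ∃ ζ : Fin K → C, Function.Injective ζ ∧ (∀ t, χ (ζ t) = b) ∧ ∀ t, ζ t ∉ Q := by
    intro b
    have hc : K ≤ ((Finset.univ.filter (fun x => χ x = b)) \ Q).card := by
      have := Finset.le_card_sdiff Q (Finset.univ.filter (fun x => χ x = b))
      have := h b
      omega
    obtain ⟨f⟩ := Function.Embedding.nonempty_of_card_le (α := Fin K)
      (β := {x // x ∈ (Finset.univ.filter (fun x => χ x = b)) \ Q})
      (by rw [Fintype.card_fin, Fintype.card_coe]; exact hc)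
    refine ⟨fun t => (f t).1, ?_, ?_, ?_⟩
    · intro s t hst
      exact f.injective (Subtype.ext hst)
    · intro t
      have := (f t).2
      rw [Finset.mem_sdiff, Finset.mem_filter] at this
      exact this.1.2
    · intro t
      have := (f t).2
      rw [Finset.mem_sdiff] at this
      exact this.2
  choose ζ h1 h2 h3 using key
  exact ⟨ζ, h1, h2, h3⟩

/-- Evaluate on reference tuples. -/
def ev (ρ : Bool → Fin K → C) :
    ((Fin K → C) → F) →ₗ[F] ((Fin K → Bool × Fin K) → F) where
  toFun u := fun g => u (fun t => ρ (g t).1 (g t).2)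
  map_add' _ _ := rfl
  map_smul' _ _ := rfl

/-- Core local-to-global step. -/
lemma core_step {χ : C → Bool} {Q Q' : Finset C} (hQQ : Q ⊆ Q')
    {ζ ρ : Bool → Fin K → C}
    (hζ1 : ∀ b, Function.Injective (ζ b)) (hζ2 : ∀ b t, χ (ζ b t) = b)
    (hζ3 : ∀ b t, ζ b t ∉ Q) (hζ4 : ∀ b t, ζ b t ∈ Q')
    (hρ1 : ∀ b, Function.Injective (ρ b)) (hρ2 : ∀ b t, χ (ρ b t) = b)
    (hρ3 : ∀ b t, ρ b t ∉ Q')
    {U U' : Submodule F ((Fin K → C) → F)} (hle : U ≤ U') (hU : Inv χ Q U) (hU' : Inv χ Q U')
    (h1 : U.map (Rb Q') = U'.map (Rb Q'))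
    (h2 : U ⊓ Vb F K Q' = U' ⊓ Vb F K Q')
    (h3 : (U ⊓ Vg F K Q').map (ev ρ) = (U' ⊓ Vg F K Q').map (ev ρ)) : U = U' := by
  -- the list of pairs attached to a tuple
  let lst : (Fin K → C) → List (C × C) := fun i => List.ofFn (fun t => (i t, ζ (χ (i t)) t))
  let Zs : Finset C := Finset.univ.image (fun x : Bool × Fin K => ζ x.1 x.2)
  have hZs : ∀ b t, ζ b t ∈ Zs := fun b t =>
    Finset.mem_image.mpr ⟨(b, t), Finset.mem_univ _, rfl⟩
  have hZsQ' : ∀ z ∈ Zs, z ∈ Q' := by
    intro z hz
    obtain ⟨x, _, rfl⟩ := Finset.mem_image.mp hz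
    exact hζ4 _ _
  have hζne : ∀ b b' t t', ζ b t = ζ b' t' → b = b' ∧ t = t' := by
    intro b b' t t' h
    have hb : b = b' := by rw [← hζ2 b t, ← hζ2 b' t', h]
    subst hb
    exact ⟨rfl, hζ1 b h⟩
  have hmemlst : ∀ i : Fin K → C, ∀ p ∈ lst i, ∃ t, p = (i t, ζ (χ (i t)) t) := by
    intro i p hp
    obtain ⟨t, ht⟩ := (List.mem_ofFn' _ _).mp hp
    exact ⟨t, ht.symm⟩
  -- D preserves invariant subspaces
  have hD : ∀ {W : Submodule F ((Fin K → C) → F)}, Inv χ Q W → ∀ i : Fin K → C, Good Q' i →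
      ∀ u ∈ W, Dl (lst i) u ∈ W := by
    intro W hW i hi u hu
    apply Dl_mem hW _ _ hu
    intro p hp
    obtain ⟨t, rfl⟩ := hmemlst i p hp
    exact ⟨fun h => hi.2 t (hQQ h), hζ3 _ _, (hζ2 _ _).symm⟩
  -- evaluation of D
  have hDe : ∀ i : Fin K → C, Good Q' i → ∀ u ∈ Vg F K Q', ∀ g : Fin K → C, Good Q' g →
      Dl (lst i) u g = if ∀ t, i t ∈ Set.range g then u g else 0 := by
    intro i hi u hu g hg
    rw [Dl_apply Zs (lst i) ?_ ?_ u ?_ g ?_]
    · congr 1
      simp only [eq_iff_iff]
      constructor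
      · intro h t
        exact h (i t, ζ (χ (i t)) t) ((List.mem_ofFn' _ _).mpr ⟨t, rfl⟩)
      · intro h p hp
        obtain ⟨t, rfl⟩ := hmemlst i p hp
        exact h t
    · rw [List.map_ofFn, List.nodup_ofFn]
      intro s t hst
      exact (hζne _ _ _ _ hst).2
    · intro p hp
      obtain ⟨t, rfl⟩ := hmemlst i p hp
      exact ⟨fun h => hi.2 t (hZsQ' _ h), hZs _ _⟩
    · intro g z hz hzg
      apply hu
      intro hgood
      obtain ⟨t, rfl⟩ := hzg
      exact hgood.2 t (hZsQ' _ hz)
    · intro z hz hzg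
      obtain ⟨t, rfl⟩ := hzg
      exact hg.2 t (hZsQ' _ hz)
  -- Step A
  have stepA : ∀ i : Fin K → C, Good Q' i → ∀ v ∈ U' ⊓ Vg F K Q', Dl (lst i) v ∈ U := by
    intro i hi v hv
    let i₀ : Fin K → C := fun t => ρ (χ (i t)) t
    obtain ⟨π, hπ, hπi⟩ := exists_perm (χ := χ) (Q := Q') (i₀ := i₀) (i := i)
      (by
        intro s t hst
        have hb : χ (i s) = χ (i t) := by
          rw [← hρ2 (χ (i s)) s, ← hρ2 (χ (i t)) t]; exact congrArg χ hst
        simp only [i₀, hb] at hst
        exact hρ1 _ hst)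
      hi.1 (fun t => hρ3 _ _) hi.2 (fun t => hρ2 _ _)
    have hv' : act π v ∈ U' ⊓ Vg F K Q' :=
      ⟨hU' π (hπ.mono hQQ) v hv.1, inv_Vg χ Q' π hπ v hv.2⟩
    have : ev ρ (act π v) ∈ (U ⊓ Vg F K Q').map (ev ρ) := by
      rw [h3]; exact Submodule.mem_map_of_mem hv'
    obtain ⟨u', hu', huv⟩ := this
    let u := act π⁻¹ u'
    have hu : u ∈ U ⊓ Vg F K Q' :=
      ⟨hU π⁻¹ (hπ.mono hQQ).inv u' hu'.1, inv_Vg χ Q' π⁻¹ hπ.inv u' hu'.2⟩
    have hw : ∀ w : Fin K → Fin K, (v - u) (fun s => i (w s)) = 0 := by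
      intro w
      have e1 := congrFun huv (fun s => (χ (i (w s)), w s))
      simp only [ev, LinearMap.coe_mk, AddHom.coe_mk, act_apply] at e1
      have e2 : (fun t => π (ρ (χ (i (w t))) (w t))) = fun s => i (w s) := by
        funext s; exact hπi (w s)
      rw [e2] at e1
      have e3 : u (fun s => i (w s)) = u' (fun s => ρ (χ (i (w s))) (w s)) := by
        show u' (fun t => π⁻¹ (i (w t))) = _
        congr 1
        funext s
        rw [Equiv.Perm.inv_eq_iff_eq]
        exact (hπi (w s)).symm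
      rw [Pi.sub_apply, e3, e1, sub_self]
    have hvu : v - u ∈ U' ⊓ Vg F K Q' :=
      ⟨Submodule.sub_mem _ hv.1 (hle hu.1), Submodule.sub_mem _ hv.2 hu.2⟩
    have hb : Dl (lst i) (v - u) ∈ U' ⊓ Vb F K Q' := by
      refine ⟨hD hU' i hi _ hvu.1, ?_⟩
      intro g hg
      rw [hDe i hi _ hvu.2 g hg]
      split_ifs with hall
      · -- g is a rearrangement of i
        have hsub : (Finset.univ.image i) ⊆ Finset.univ.image g := by
          intro x hx
          obtain ⟨t, _, rfl⟩ := Finset.mem_image.mp hx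
          obtain ⟨s, hs⟩ := hall t
          exact Finset.mem_image.mpr ⟨s, Finset.mem_univ _, hs⟩
        have heq : (Finset.univ.image i) = Finset.univ.image g := by
          apply Finset.eq_of_subset_of_card_le hsub
          rw [Finset.card_image_of_injective _ hi.1, Finset.card_image_of_injective _ hg.1]
        have : ∀ s, ∃ t, i t = g s := by
          intro s
          have : g s ∈ Finset.univ.image i := by
            rw [heq]; exact Finset.mem_image_of_mem _ (Finset.mem_univ _)
          obtain ⟨t, _, ht⟩ := Finset.mem_image.mp this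
          exact ⟨t, ht⟩
        choose w hwg using this
        have hg' : g = fun s => i (w s) := by funext s; exact (hwg s).symm
        rw [hg']
        exact hw w
      · rfl
    rw [← h2] at hb
    have e : Dl (lst i) v = Dl (lst i) (v - u) + Dl (lst i) u := by
      rw [← map_add]; simp
    rw [e]
    exact Submodule.add_mem _ hb.1 (hD hU i hi _ hu.1)
  -- Step B
  have stepB : ∀ v ∈ U' ⊓ Vg F K Q', v ∈ U := by
    intro v hv
    have hen : ∀ S : Finset C, ∃ i : Fin K → C, S ∈ (Finset.univ \ Q').powersetCard K →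
        (Function.Injective i ∧ ∀ x, x ∈ S ↔ x ∈ Set.range i) := by
      intro S
      by_cases hS : S ∈ (Finset.univ \ Q').powersetCard K
      · rw [Finset.mem_powersetCard] at hS
        let e := Finset.equivFinOfCardEq hS.2
        refine ⟨fun t => (e.symm t).1, fun _ => ⟨?_, ?_⟩⟩
        · intro s t hst
          exact e.symm.injective (Subtype.ext hst)
        · intro x
          constructor
          · intro hx
            exact ⟨e ⟨x, hx⟩, by simp⟩
          · rintro ⟨t, rfl⟩
            exact (e.symm t).2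
      · by_cases hne : ∃ i : Fin K → C, True
        · obtain ⟨i, _⟩ := hne
          exact ⟨i, fun h => absurd h hS⟩
        · rcases Nat.eq_zero_or_pos K with h0 | h0
          · subst h0
            exact absurd ⟨Fin.elim0, trivial⟩ hne
          · exact absurd ⟨ρ true, trivial⟩ hne
    choose enum henum using hen
    have hgoodenum : ∀ S ∈ (Finset.univ \ Q').powersetCard K, Good Q' (enum S) := by
      intro S hS
      refine ⟨(henum S hS).1, fun t ht => ?_⟩
      have := ((henum S hS).2 (enum S t)).mpr ⟨t, rfl⟩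
      rw [Finset.mem_powersetCard] at hS
      have := hS.1 this
      rw [Finset.mem_sdiff] at this
      exact this.2 ht
    let sv := ∑ S ∈ (Finset.univ \ Q').powersetCard K, Dl (lst (enum S)) v
    have hsU : sv ∈ U := Submodule.sum_mem _ (fun S hS => stepA _ (hgoodenum S hS) v hv)
    have hw : v - sv ∈ U' ⊓ Vb F K Q' := by
      refine ⟨Submodule.sub_mem _ hv.1 (hle hsU), ?_⟩
      intro g hg
      rw [Pi.sub_apply]
      have : sv g = v g := by
        show (∑ S ∈ (Finset.univ \ Q').powersetCard K, Dl (lst (enum S)) v) g = v g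
        rw [Finset.sum_apply]
        have hSg : Finset.univ.image g ∈ (Finset.univ \ Q').powersetCard K := by
          rw [Finset.mem_powersetCard]
          refine ⟨?_, ?_⟩
          · intro x hx
            obtain ⟨t, _, rfl⟩ := Finset.mem_image.mp hx
            rw [Finset.mem_sdiff]
            exact ⟨Finset.mem_univ _, hg.2 t⟩
          · rw [Finset.card_image_of_injective _ hg.1]; simp
        rw [Finset.sum_eq_single (Finset.univ.image g)]
        · rw [hDe _ (hgoodenum _ hSg) v hv.2 g hg, if_pos]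
          intro t
          have := ((henum _ hSg).2 (enum (Finset.univ.image g) t)).mpr ⟨t, rfl⟩
          obtain ⟨s, _, hs⟩ := Finset.mem_image.mp this
          exact ⟨s, hs⟩
        · intro S hS hne
          rw [hDe _ (hgoodenum S hS) v hv.2 g hg, if_neg]
          intro hall
          apply hne
          have hsub : S ⊆ Finset.univ.image g := by
            intro x hx
            obtain ⟨t, rfl⟩ := ((henum S hS).2 x).mp hx
            obtain ⟨s, hs⟩ := hall t
            exact Finset.mem_image.mpr ⟨s, Finset.mem_univ _, hs⟩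
          apply Finset.eq_of_subset_of_card_le hsub
          rw [Finset.mem_powersetCard] at hS hSg
          rw [hS.2, hSg.2]
        · intro h; exact absurd hSg h
      rw [this, sub_self]
    rw [← h2] at hw
    have := Submodule.add_mem _ hw.1 hsU
    simpa using this
  -- Step C
  apply le_antisymm hle
  intro u' hu'
  have : Rb Q' u' ∈ U.map (Rb Q') := by
    rw [h1]; exact Submodule.mem_map_of_mem hu'
  obtain ⟨u, hu, huu⟩ := this
  have hv : u' - u ∈ U' ⊓ Vg F K Q' := by
    refine ⟨Submodule.sub_mem _ hu' (hle hu), ?_⟩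
    intro i hi
    have := congrFun huu i
    simp only [Rb, LinearMap.coe_mk, AddHom.coe_mk, hi, if_false] at this
    rw [Pi.sub_apply, this, sub_self]
  have := Submodule.add_mem _ (stepB _ hv) hu
  simpa using this

/-- Chains of invariant subspaces of functions on `K`-tuples have bounded length. -/
theorem chain_bound (K : ℕ) : ∀ q : ℕ, ∃ L n₀ : ℕ, ∀ (F : Type) [Field F] (C : Type) [Fintype C]
    (χ : C → Bool) (Q : Finset C), Q.card ≤ q →
    (∀ b, n₀ ≤ (Finset.univ.filter (fun x => χ x = b)).card) →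
    ∀ c : ℕ → Submodule F ((Fin K → C) → F), Monotone c → (∀ n, Inv χ Q (c n)) →
    ∀ n, jumps c n ≤ L := by
  induction K with
  | zero =>
    intro q
    refine ⟨1, 0, ?_⟩
    intro F _ C _ χ Q _ _ c hc _ n
    refine le_trans (jumps_le_finrank hc n) ?_
    simp
  | succ K ih =>
    intro q
    obtain ⟨L', n', hL'⟩ := ih (q + 2 * (K + 1))
    refine ⟨((K + 1) * ((q + 2 * (K + 1)) + K)) * L' + ((K + 1) * ((q + 2 * (K + 1)) + K)) * L' +
      (2 * (K + 1)) ^ (K + 1), max n' (q + 3 * (K + 1)), ?_⟩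
    intro F _ C _ χ Q hQ hn c hc hI n
    obtain ⟨ζ, hζ1, hζ2, hζ3⟩ := exists_fresh χ Q (K + 1) (fun b => by
      have := hn b
      have := le_max_right n' (q + 3 * (K + 1))
      omega)
    let Q' : Finset C := Q ∪ Finset.univ.image (fun x : Bool × Fin (K + 1) => ζ x.1 x.2)
    have hQ' : Q'.card ≤ q + 2 * (K + 1) := by
      refine le_trans (Finset.card_union_le _ _) ?_
      have : (Finset.univ.image (fun x : Bool × Fin (K + 1) => ζ x.1 x.2)).card ≤ 2 * (K + 1) := by
        refine le_trans Finset.card_image_le ?_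
        simp
      omega
    have hQQ : Q ⊆ Q' := Finset.subset_union_left
    have hζ4 : ∀ b t, ζ b t ∈ Q' := fun b t =>
      Finset.mem_union_right _ (Finset.mem_image.mpr ⟨(b, t), Finset.mem_univ _, rfl⟩)
    obtain ⟨ρ, hρ1, hρ2, hρ3⟩ := exists_fresh χ Q' (K + 1) (fun b => by
      have := hn b
      have := le_max_right n' (q + 3 * (K + 1))
      omega)
    have hL'' := hL' F C χ Q' hQ' (fun b => le_trans (le_max_left _ _) (hn b))
    have hRb : ∀ π, Grp χ Q' π → ∀ u : (Fin (K + 1) → C) → F, act π (Rb Q' u) = Rb Q' (act π u) := by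
      intro π hπ u
      ext i
      simp only [act_apply, Rb, LinearMap.coe_mk, AddHom.coe_mk, good_act hπ i]
    have j1 : jumps (fun n => (c n).map (Rb Q')) n ≤ ((K + 1) * ((q + 2 * (K + 1)) + K)) * L' := by
      apply bad_chain (χ := χ) (Q := Q') hQ' hL''
      · intro a b hab; exact Submodule.map_mono (hc hab)
      · intro m; exact inv_map ((hI m).mono hQQ) _ hRb
      · rintro m _ ⟨u, _, rfl⟩ i hi
        simp [Rb, hi]
    have j2 : jumps (fun n => c n ⊓ Vb F (K + 1) Q') n ≤
        ((K + 1) * ((q + 2 * (K + 1)) + K)) * L' := by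
      apply bad_chain (χ := χ) (Q := Q') hQ' hL''
      · intro a b hab; exact inf_le_inf_right _ (hc hab)
      · intro m; exact ((hI m).mono hQQ).inf (inv_Vb χ Q')
      · intro m; exact inf_le_right
    have j3 : jumps (fun n => (c n ⊓ Vg F (K + 1) Q').map (ev ρ)) n ≤
        (2 * (K + 1)) ^ (K + 1) := by
      refine le_trans (jumps_le_finrank ?_ n) ?_
      · intro a b hab; exact Submodule.map_mono (inf_le_inf_right _ (hc hab))
      · simp
    refine le_trans (jumps_le_add (a := fun n => ((c n).map (Rb Q'), c n ⊓ Vb F (K + 1) Q'))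
      (b := fun n => (c n ⊓ Vg F (K + 1) Q').map (ev ρ)) ?_ n) ?_
    · intro m e1 e2
      rw [Prod.mk.injEq] at e1
      exact core_step hQQ hζ1 hζ2 hζ3 hζ4 hρ1 hρ2 hρ3 (hc (Nat.le_succ m)) (hI m) (hI (m + 1))
        e1.1 e1.2 e2
    · apply add_le_add _ j3
      refine le_trans (jumps_le_add (a := fun n => (c n).map (Rb Q'))
        (b := fun n => c n ⊓ Vb F (K + 1) Q') ?_ n) (add_le_add j1 j2)
      intro m e1 e2
      exact Prod.ext e1 e2

end

end Pool.Agent.OntoPHP
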