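import Mathlib

set_option autoImplicit false
set_option linter.unusedSectionVars false
set_option linter.unusedVariables false

namespace Pool.Agent.OntoPHP

open Finset

section

variable {A I : Type} [Fintype A] [DecidableEq A] [Fintype I] [DecidableEq I]

/-- Change the value of an embedding at one point to a fresh value. -/
def upd (f : I ↪ A) (t : I) (y : A) (hy : y ∉ Set.range f) : I ↪ A where
  toFun := Function.update f t y
  inj' := by
    intro u v huv
    by_cases hu : u = t <;> by_cases hv : v = t
    · rw [hu, hv]
    · subst hu
      rw [Function.update_self, Function.update_of_ne hv] at huv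
      exact absurd ⟨v, huv.symm⟩ hy
    · subst hv
      rw [Function.update_self, Function.update_of_ne hu] at huv
      exact absurd ⟨u, huv⟩ hy
    · rw [Function.update_of_ne hv, Function.update_of_ne hu] at huv
      exact f.injective huv

@[simp] lemma upd_self (f : I ↪ A) (t : I) (y : A) (hy : y ∉ Set.range f) :
    upd f t y hy t = y := by
  unfold upd; rw [Function.Embedding.coeFn_mk, Function.update_self]

lemma upd_ne (f : I ↪ A) (t : I) (y : A) (hy : y ∉ Set.range f) {s : I} (h : s ≠ t) :
    upd f t y hy s = f s := by
  unfold upd; rw [Function.Embedding.coeFn_mk, Function.update_of_ne h]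

lemma conn (hlt : Fintype.card I < Fintype.card A) (R : (I ↪ A) → (I ↪ A) → Prop)
    (hrefl : ∀ f, R f f) (htrans : ∀ f g h, R f g → R g h → R f h)
    (hstep : ∀ (f : I ↪ A) (t : I) (y : A) (hy : y ∉ Set.range f), R f (upd f t y hy)) :
    ∀ f f', R f f' := by
  intro f f'
  induction hn : (Finset.univ.filter (fun t => f t ≠ f' t)).card using Nat.strong_induction_on
    generalizing f with
  | _ n ih =>
    by_cases hall : ∀ t, f t = f' t
    · have : f = f' := by ext t; exact hall t
      subst this
      exact hrefl _
    · push Not at hall
      obtain ⟨t, ht⟩ := hall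
      by_cases hr : f' t ∈ Set.range f
      · obtain ⟨s, hs⟩ := hr
        have hst : s ≠ t := by
          rintro rfl
          exact ht hs
        obtain ⟨y, hy⟩ : ∃ y, y ∉ Set.range f := by
          by_contra hcon
          push Not at hcon
          have : Function.Surjective f := fun y => hcon y
          exact absurd (Fintype.card_le_of_surjective f this) (not_le.mpr hlt)
        have hfresh : f' t ∉ Set.range (upd f s y hy) := by
          rintro ⟨u, hu⟩
          by_cases hus : u = s
          · subst hus
            rw [upd_self] at hu
            exact hy ⟨u, by rw [hs, ← hu]⟩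
          · rw [upd_ne f s y hy hus, ← hs] at hu
            exact hus (f.injective hu)
        have hcard : (Finset.univ.filter
            (fun u => upd (upd f s y hy) t (f' t) hfresh u ≠ f' u)).card < n := by
          rw [← hn]
          apply Finset.card_lt_card
          rw [Finset.ssubset_iff_of_subset]
          · refine ⟨t, by simp [ht], by simp⟩
          · intro u hu
            simp only [Finset.mem_filter, Finset.mem_univ, true_and] at hu ⊢
            by_cases hut : u = t
            · subst hut; exact ht
            · rw [upd_ne _ _ _ _ hut] at hu
              by_cases hus : u = s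
              · subst hus
                intro h
                rw [hs] at h
                exact hut (f'.injective h).symm
              · rwa [upd_ne _ _ _ _ hus] at hu
        exact htrans _ _ _ (hstep f s y hy) (htrans _ _ _ (hstep _ t (f' t) hfresh)
          (ih _ hcard _ rfl))
      · have hcard : (Finset.univ.filter
            (fun u => upd f t (f' t) hr u ≠ f' u)).card < n := by
          rw [← hn]
          apply Finset.card_lt_card
          rw [Finset.ssubset_iff_of_subset]
          · refine ⟨t, by simp [ht], by simp⟩
          · intro u hu
            simp only [Finset.mem_filter, Finset.mem_univ, true_and] at hu ⊢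
            by_cases hut : u = t
            · subst hut; exact ht
            · rwa [upd_ne _ _ _ _ hut] at hu
        exact htrans _ _ _ (hstep f t (f' t) hr) (ih _ hcard _ rfl)

lemma map_upd (f : I ↪ A) (t : I) (y : A) (hy : y ∉ Set.range f) :
    Finset.univ.map (upd f t y hy) ∪ {f t} = Finset.univ.map f ∪ {y} := by
  ext x
  simp only [Finset.mem_union, Finset.mem_map, Finset.mem_univ, true_and, Finset.mem_singleton]
  constructor
  · rintro (⟨u, hu⟩ | rfl)
    · by_cases hut : u = t
      · subst hut; rw [upd_self] at hu; exact Or.inr hu.symm
      · rw [upd_ne _ _ _ _ hut] at hu; exact Or.inl ⟨u, hu⟩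
    · exact Or.inl ⟨t, rfl⟩
  · rintro (⟨u, hu⟩ | rfl)
    · by_cases hut : u = t
      · subst hut; exact Or.inr hu.symm
      · exact Or.inl ⟨u, by rw [upd_ne _ _ _ _ hut]; exact hu⟩
    · exact Or.inl ⟨t, by rw [upd_self]⟩

lemma notMem_map_upd (f : I ↪ A) (t : I) (y : A) (hy : y ∉ Set.range f) :
    f t ∉ Finset.univ.map (upd f t y hy) := by
  simp only [Finset.mem_map, Finset.mem_univ, true_and, not_exists]
  intro u hu
  by_cases hut : u = t
  · subst hut; rw [upd_self] at hu; exact hy ⟨u, hu.symm⟩
  · rw [upd_ne _ _ _ _ hut] at hu; exact hut (f.injective hu)

end

end Pool.Agent.OntoPHP
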