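import Mathlib

set_option autoImplicit false
set_option linter.unusedSectionVars false
set_option linter.unusedVariables false

namespace Pool.Agent.OntoPHP

open Finset

section defs

variable {A B F : Type} [Fintype A] [DecidableEq A] [Fintype B] [DecidableEq B] [Field F]

/-- A set of edges that is a matching. -/
def IsM (S : Finset (A × B)) : Prop := ∀ e ∈ S, ∀ f ∈ S, (e.1 = f.1 ↔ e.2 = f.2)

/-- Row defect. -/
def rd (φ : Finset (A × B) → F) (S : Finset (A × B)) (i : A) : F :=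
  (∑ b : B, φ (insert (i, b) S)) - φ S

/-- Column defect. -/
def cd (φ : Finset (A × B) → F) (S : Finset (A × B)) (j : B) : F :=
  (∑ a : A, φ (insert (a, j) S)) - φ S

/-- `φ` is supported on matchings inside `A₁ × B₁`. -/
def Supp (A₁ : Finset A) (B₁ : Finset B) (φ : Finset (A × B) → F) : Prop :=
  ∀ S, φ S ≠ 0 → IsM S ∧ ∀ e ∈ S, e.1 ∈ A₁ ∧ e.2 ∈ B₁

/-- The defect map. -/
def T (d : ℕ) (A₁ : Finset A) (B₁ : Finset B) :
    (Finset (A × B) → F) →ₗ[F]
      ((Finset (A × B) → A → F) × (Finset (A × B) → B → F)) where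
  toFun φ := (fun S i => if S.card < d ∧ i ∈ A₁ then rd φ S i else 0,
    fun S j => if S.card < d ∧ j ∈ B₁ then cd φ S j else 0)
  map_add' φ ψ := by
    ext S x
    · simp only [rd, Pi.add_apply, Prod.fst_add, Finset.sum_add_distrib]
      split_ifs <;> ring
    · simp only [cd, Pi.add_apply, Prod.snd_add, Finset.sum_add_distrib]
      split_ifs <;> ring
  map_smul' c φ := by
    ext S x
    · simp only [rd, Pi.smul_apply, smul_eq_mul, ← Finset.mul_sum, RingHom.id_apply, Prod.smul_fst]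
      split_ifs <;> ring
    · simp only [cd, Pi.smul_apply, smul_eq_mul, ← Finset.mul_sum, RingHom.id_apply, Prod.smul_snd]
      split_ifs <;> ring

/-- Partial design of degree `d` on `A₁ × B₁`. -/
structure PD (d : ℕ) (A₁ : Finset A) (B₁ : Finset B) (φ : Finset (A × B) → F) : Prop where
  one : φ ∅ = 1
  supp : Supp A₁ B₁ φ
  row : ∀ S, S.card < d → ∀ i ∈ A₁, rd φ S i = 0
  col : ∀ S, S.card < d → ∀ j ∈ B₁, cd φ S j = 0

lemma T_eq_zero {d : ℕ} {A₁ : Finset A} {B₁ : Finset B} {φ : Finset (A × B) → F}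
    (hr : ∀ S, S.card < d → ∀ i ∈ A₁, rd φ S i = 0)
    (hc : ∀ S, S.card < d → ∀ j ∈ B₁, cd φ S j = 0) : T d A₁ B₁ φ = 0 := by
  ext S x
  · simp only [T, LinearMap.coe_mk, AddHom.coe_mk, Prod.fst_zero, Pi.zero_apply]
    split_ifs with h
    · exact hr S h.1 x h.2
    · rfl
  · simp only [T, LinearMap.coe_mk, AddHom.coe_mk, Prod.snd_zero, Pi.zero_apply]
    split_ifs with h
    · exact hc S h.1 x h.2
    · rfl

lemma of_T_eq_zero {d : ℕ} {A₁ : Finset A} {B₁ : Finset B} {φ : Finset (A × B) → F}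
    (h : T d A₁ B₁ φ = 0) :
    (∀ S, S.card < d → ∀ i ∈ A₁, rd φ S i = 0) ∧
    (∀ S, S.card < d → ∀ j ∈ B₁, cd φ S j = 0) := by
  constructor
  · intro S hS i hi
    have := congrFun (congrFun (congrArg Prod.fst h) S) i
    simpa [T, hS, hi] using this
  · intro S hS i hi
    have := congrFun (congrFun (congrArg Prod.snd h) S) i
    simpa [T, hS, hi] using this

lemma Supp.eq_zero_left {A₁ : Finset A} {B₁ : Finset B} {φ : Finset (A × B) → F}
    (h : Supp A₁ B₁ φ) {S : Finset (A × B)} {e : A × B} (he : e ∈ S) (he1 : e.1 ∉ A₁) :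
    φ S = 0 := by
  by_contra hne
  exact he1 ((h S hne).2 e he).1

lemma Supp.eq_zero_right {A₁ : Finset A} {B₁ : Finset B} {φ : Finset (A × B) → F}
    (h : Supp A₁ B₁ φ) {S : Finset (A × B)} {e : A × B} (he : e ∈ S) (he1 : e.2 ∉ B₁) :
    φ S = 0 := by
  by_contra hne
  exact he1 ((h S hne).2 e he).2

/-- Product of two functionals, split along the pigeon set `A₁`. -/
def tp (A₁ : Finset A) (φ₁ φ₂ : Finset (A × B) → F) : Finset (A × B) → F :=
  fun S => φ₁ (S.filter (fun e => e.1 ∈ A₁)) * φ₂ (S.filter (fun e => e.1 ∉ A₁))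

lemma tp_supp {A₁ A₂ : Finset A} {B₁ B₂ : Finset B} {φ₁ φ₂ : Finset (A × B) → F}
    (hA : Disjoint A₁ A₂) (hB : Disjoint B₁ B₂)
    (h₁ : Supp A₁ B₁ φ₁) (h₂ : Supp A₂ B₂ φ₂) :
    Supp (A₁ ∪ A₂) (B₁ ∪ B₂) (tp A₁ φ₁ φ₂) := by
  intro S hS
  have h1 : φ₁ (S.filter (fun e => e.1 ∈ A₁)) ≠ 0 := left_ne_zero_of_mul hS
  have h2 : φ₂ (S.filter (fun e => e.1 ∉ A₁)) ≠ 0 := right_ne_zero_of_mul hS
  obtain ⟨m1, s1⟩ := h₁ _ h1
  obtain ⟨m2, s2⟩ := h₂ _ h2
  refine ⟨?_, ?_⟩
  · intro e he f hf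
    by_cases e1 : e.1 ∈ A₁ <;> by_cases f1 : f.1 ∈ A₁
    · exact m1 e (by simp [he, e1]) f (by simp [hf, f1])
    · have a := s1 e (by simp [he, e1])
      have b := s2 f (by simp [hf, f1])
      constructor
      · intro h; rw [h] at e1; exact absurd e1 f1
      · intro h
        exact absurd (h ▸ b.2) (Finset.disjoint_left.mp hB a.2)
    · have a := s2 e (by simp [he, e1])
      have b := s1 f (by simp [hf, f1])
      constructor
      · intro h; rw [← h] at f1; exact absurd f1 e1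
      · intro h
        exact absurd (h ▸ a.2) (Finset.disjoint_left.mp hB b.2)
    · exact m2 e (by simp [he, e1]) f (by simp [hf, f1])
  · intro e he
    by_cases e1 : e.1 ∈ A₁
    · have a := s1 e (by simp [he, e1])
      exact ⟨Finset.mem_union_left _ a.1, Finset.mem_union_left _ a.2⟩
    · have a := s2 e (by simp [he, e1])
      exact ⟨Finset.mem_union_right _ a.1, Finset.mem_union_right _ a.2⟩

lemma rd_tp_left {A₁ : Finset A} {φ₁ φ₂ : Finset (A × B) → F} {S : Finset (A × B)} {i : A}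
    (hi : i ∈ A₁) :
    rd (tp A₁ φ₁ φ₂) S i =
      rd φ₁ (S.filter (fun e => e.1 ∈ A₁)) i * φ₂ (S.filter (fun e => e.1 ∉ A₁)) := by
  unfold rd tp
  have : ∀ b : B, (insert (i, b) S).filter (fun e => e.1 ∉ A₁) = S.filter (fun e => e.1 ∉ A₁) := by
    intro b
    rw [Finset.filter_insert]; simp [hi]
  have h2 : ∀ b : B, (insert (i, b) S).filter (fun e => e.1 ∈ A₁)
      = insert (i, b) (S.filter (fun e => e.1 ∈ A₁)) := by
    intro b
    rw [Finset.filter_insert]; simp [hi]
  simp only [this, h2]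
  rw [← Finset.sum_mul]; ring

lemma rd_tp_right {A₁ : Finset A} {φ₁ φ₂ : Finset (A × B) → F} {S : Finset (A × B)} {i : A}
    (hi : i ∉ A₁) :
    rd (tp A₁ φ₁ φ₂) S i =
      φ₁ (S.filter (fun e => e.1 ∈ A₁)) * rd φ₂ (S.filter (fun e => e.1 ∉ A₁)) i := by
  unfold rd tp
  have : ∀ b : B, (insert (i, b) S).filter (fun e => e.1 ∉ A₁)
      = insert (i, b) (S.filter (fun e => e.1 ∉ A₁)) := by
    intro b
    rw [Finset.filter_insert]; simp [hi]
  have h2 : ∀ b : B, (insert (i, b) S).filter (fun e => e.1 ∈ A₁)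
      = (S.filter (fun e => e.1 ∈ A₁)) := by
    intro b
    rw [Finset.filter_insert]; simp [hi]
  simp only [this, h2]
  rw [← Finset.mul_sum]; ring

lemma cd_tp_left {A₁ A₂ : Finset A} {B₁ B₂ : Finset B} {φ₁ φ₂ : Finset (A × B) → F}
    (hB : Disjoint B₁ B₂) (h₁ : Supp A₁ B₁ φ₁) (h₂ : Supp A₂ B₂ φ₂)
    {S : Finset (A × B)} {j : B} (hj : j ∈ B₁) :
    cd (tp A₁ φ₁ φ₂) S j =
      cd φ₁ (S.filter (fun e => e.1 ∈ A₁)) j * φ₂ (S.filter (fun e => e.1 ∉ A₁)) := by
  unfold cd tp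
  rw [sub_mul, Finset.sum_mul]
  congr 1
  apply Finset.sum_congr rfl
  intro a _
  by_cases ha : a ∈ A₁
  · rw [Finset.filter_insert, Finset.filter_insert]; simp [ha]
  · have e1 : φ₁ (insert (a, j) (S.filter (fun e => e.1 ∈ A₁))) = 0 :=
      h₁.eq_zero_left (Finset.mem_insert_self _ _) ha
    have e2 : φ₂ ((insert (a, j) S).filter (fun e => e.1 ∉ A₁)) = 0 := by
      refine h₂.eq_zero_right (e := (a, j)) (by simp [ha]) ?_
      exact Finset.disjoint_left.mp hB hj
    rw [e1, e2]; ring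

lemma cd_tp_right {A₁ A₂ : Finset A} {B₁ B₂ : Finset B} {φ₁ φ₂ : Finset (A × B) → F}
    (hA : Disjoint A₁ A₂) (hB : Disjoint B₁ B₂) (h₁ : Supp A₁ B₁ φ₁) (h₂ : Supp A₂ B₂ φ₂)
    {S : Finset (A × B)} {j : B} (hj : j ∈ B₂) :
    cd (tp A₁ φ₁ φ₂) S j =
      φ₁ (S.filter (fun e => e.1 ∈ A₁)) * cd φ₂ (S.filter (fun e => e.1 ∉ A₁)) j := by
  unfold cd tp
  rw [mul_sub, Finset.mul_sum]
  congr 1
  apply Finset.sum_congr rfl
  intro a _
  by_cases ha : a ∈ A₁
  · have e2 : φ₂ (insert (a, j) (S.filter (fun e => e.1 ∉ A₁))) = 0 :=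
      h₂.eq_zero_left (Finset.mem_insert_self _ _) (Finset.disjoint_left.mp hA ha)
    have e1 : φ₁ ((insert (a, j) S).filter (fun e => e.1 ∈ A₁)) = 0 := by
      refine h₁.eq_zero_right (e := (a, j)) (by simp [ha]) ?_
      exact Finset.disjoint_right.mp hB hj
    rw [e1, e2]; ring
  · rw [Finset.filter_insert, Finset.filter_insert]; simp [ha]

lemma filter_mem_of_right_empty {A₁ : Finset A} {S : Finset (A × B)}
    (h : S.filter (fun e => e.1 ∉ A₁) = ∅) : S.filter (fun e => e.1 ∈ A₁) = S := by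
  rw [Finset.filter_eq_self]
  intro e he
  by_contra hne
  have : e ∈ S.filter (fun e => e.1 ∉ A₁) := by simp [he, hne]
  rw [h] at this
  simp at this

lemma filter_notMem_of_left_empty {A₁ : Finset A} {S : Finset (A × B)}
    (h : S.filter (fun e => e.1 ∈ A₁) = ∅) : S.filter (fun e => e.1 ∉ A₁) = S := by
  rw [Finset.filter_eq_self]
  intro e he hne
  have : e ∈ S.filter (fun e => e.1 ∈ A₁) := by simp [he, hne]
  rw [h] at this
  simp at this

lemma card_left_lt {A₁ : Finset A} {S : Finset (A × B)}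
    (h : S.filter (fun e => e.1 ∉ A₁) ≠ ∅) :
    (S.filter (fun e => e.1 ∈ A₁)).card < S.card := by
  obtain ⟨e, he⟩ := Finset.nonempty_iff_ne_empty.mpr h
  apply Finset.card_lt_card
  rw [Finset.ssubset_iff_of_subset (Finset.filter_subset _ _)]
  rw [Finset.mem_filter] at he
  exact ⟨e, he.1, by simp [he.2]⟩

lemma card_right_lt {A₁ : Finset A} {S : Finset (A × B)}
    (h : S.filter (fun e => e.1 ∈ A₁) ≠ ∅) :
    (S.filter (fun e => e.1 ∉ A₁)).card < S.card := by
  obtain ⟨e, he⟩ := Finset.nonempty_iff_ne_empty.mpr h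
  apply Finset.card_lt_card
  rw [Finset.ssubset_iff_of_subset (Finset.filter_subset _ _)]
  rw [Finset.mem_filter] at he
  exact ⟨e, he.1, by simp [he.2]⟩

/-- Additivity of the defect on products. -/
lemma T_tp {d : ℕ} {A₁ A₂ : Finset A} {B₁ B₂ : Finset B} {φ₁ φ₂ : Finset (A × B) → F}
    (hA : Disjoint A₁ A₂) (hB : Disjoint B₁ B₂) (h₁ : PD d A₁ B₁ φ₁) (h₂ : PD d A₂ B₂ φ₂) :
    T (d + 1) (A₁ ∪ A₂) (B₁ ∪ B₂) (tp A₁ φ₁ φ₂) = T (d + 1) A₁ B₁ φ₁ + T (d + 1) A₂ B₂ φ₂ := by
  ext S x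
  · simp only [T, LinearMap.coe_mk, AddHom.coe_mk, Prod.fst_add, Pi.add_apply]
    by_cases hS : S.card < d + 1
    swap
    · simp [hS]
    by_cases hx1 : x ∈ A₁
    · have hx2 : x ∉ A₂ := Finset.disjoint_left.mp hA hx1
      simp only [hS, hx1, hx2, Finset.mem_union, true_or, and_self, and_false, if_true, if_false,
        add_zero]
      rw [rd_tp_left hx1]
      by_cases he : S.filter (fun e => e.1 ∉ A₁) = ∅
      · rw [he, filter_mem_of_right_empty he, h₂.one, mul_one]
      · rw [h₁.row _ (lt_of_lt_of_le (card_left_lt he) (Nat.lt_succ_iff.mp hS)) x hx1, zero_mul]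
        obtain ⟨e, he⟩ := Finset.nonempty_iff_ne_empty.mpr he
        rw [Finset.mem_filter] at he
        unfold rd
        rw [h₁.supp.eq_zero_left he.1 he.2]
        rw [Finset.sum_eq_zero]
        · simp
        · intro b _
          exact h₁.supp.eq_zero_left (Finset.mem_insert_of_mem he.1) he.2
    · by_cases hx2 : x ∈ A₂
      · simp only [hS, hx1, hx2, Finset.mem_union, or_true, and_self, and_false, if_true, if_false,
          zero_add]
        rw [rd_tp_right hx1]
        by_cases he : S.filter (fun e => e.1 ∈ A₁) = ∅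
        · rw [he, filter_notMem_of_left_empty he, h₁.one, one_mul]
        · rw [h₂.row _ (lt_of_lt_of_le (card_right_lt he) (Nat.lt_succ_iff.mp hS)) x hx2, mul_zero]
          obtain ⟨e, he⟩ := Finset.nonempty_iff_ne_empty.mpr he
          rw [Finset.mem_filter] at he
          have he2 : e.1 ∉ A₂ := Finset.disjoint_left.mp hA he.2
          unfold rd
          rw [h₂.supp.eq_zero_left he.1 he2]
          rw [Finset.sum_eq_zero]
          · simp
          · intro b _
            exact h₂.supp.eq_zero_left (Finset.mem_insert_of_mem he.1) he2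
      · simp [hx1, hx2]
  · simp only [T, LinearMap.coe_mk, AddHom.coe_mk, Prod.snd_add, Pi.add_apply]
    by_cases hS : S.card < d + 1
    swap
    · simp [hS]
    by_cases hx1 : x ∈ B₁
    · have hx2 : x ∉ B₂ := Finset.disjoint_left.mp hB hx1
      simp only [hS, hx1, hx2, Finset.mem_union, true_or, and_self, and_false, if_true, if_false,
        add_zero]
      rw [cd_tp_left hB h₁.supp h₂.supp hx1]
      by_cases he : S.filter (fun e => e.1 ∉ A₁) = ∅
      · rw [he, filter_mem_of_right_empty he, h₂.one, mul_one]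
      · rw [h₁.col _ (lt_of_lt_of_le (card_left_lt he) (Nat.lt_succ_iff.mp hS)) x hx1, zero_mul]
        obtain ⟨e, he⟩ := Finset.nonempty_iff_ne_empty.mpr he
        rw [Finset.mem_filter] at he
        unfold cd
        rw [h₁.supp.eq_zero_left he.1 he.2]
        rw [Finset.sum_eq_zero]
        · simp
        · intro b _
          exact h₁.supp.eq_zero_left (Finset.mem_insert_of_mem he.1) he.2
    · by_cases hx2 : x ∈ B₂
      · simp only [hS, hx1, hx2, Finset.mem_union, or_true, and_self, and_false, if_true, if_false,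
          zero_add]
        rw [cd_tp_right hA hB h₁.supp h₂.supp hx2]
        by_cases he : S.filter (fun e => e.1 ∈ A₁) = ∅
        · rw [he, filter_notMem_of_left_empty he, h₁.one, one_mul]
        · rw [h₂.col _ (lt_of_lt_of_le (card_right_lt he) (Nat.lt_succ_iff.mp hS)) x hx2, mul_zero]
          obtain ⟨e, he⟩ := Finset.nonempty_iff_ne_empty.mpr he
          rw [Finset.mem_filter] at he
          have he2 : e.1 ∉ A₂ := Finset.disjoint_left.mp hA he.2
          unfold cd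
          rw [h₂.supp.eq_zero_left he.1 he2]
          rw [Finset.sum_eq_zero]
          · simp
          · intro b _
            exact h₂.supp.eq_zero_left (Finset.mem_insert_of_mem he.1) he2
      · simp [hx1, hx2]

lemma PD_tp {d : ℕ} {A₁ A₂ : Finset A} {B₁ B₂ : Finset B} {φ₁ φ₂ : Finset (A × B) → F}
    (hA : Disjoint A₁ A₂) (hB : Disjoint B₁ B₂) (h₁ : PD d A₁ B₁ φ₁) (h₂ : PD d A₂ B₂ φ₂) :
    PD d (A₁ ∪ A₂) (B₁ ∪ B₂) (tp A₁ φ₁ φ₂) := by
  refine ⟨?_, tp_supp hA hB h₁.supp h₂.supp, ?_, ?_⟩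
  · simp [tp, h₁.one, h₂.one]
  · intro S hS i hi
    by_cases h : i ∈ A₁
    · rw [rd_tp_left h, h₁.row _ (lt_of_le_of_lt (Finset.card_filter_le _ _) hS) i h, zero_mul]
    · have h' : i ∈ A₂ := by
        rcases Finset.mem_union.mp hi with h' | h'
        · exact absurd h' h
        · exact h'
      rw [rd_tp_right h, h₂.row _ (lt_of_le_of_lt (Finset.card_filter_le _ _) hS) i h', mul_zero]
  · intro S hS j hj
    by_cases h : j ∈ B₁
    · rw [cd_tp_left hB h₁.supp h₂.supp h,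
        h₁.col _ (lt_of_le_of_lt (Finset.card_filter_le _ _) hS) j h, zero_mul]
    · have h' : j ∈ B₂ := by
        rcases Finset.mem_union.mp hj with h' | h'
        · exact absurd h' h
        · exact h'
      rw [cd_tp_right hA hB h₁.supp h₂.supp h',
        h₂.col _ (lt_of_le_of_lt (Finset.card_filter_le _ _) hS) j h', mul_zero]

/-- The honest functional attached to a graph. -/
def hon (G : Finset (A × B)) : Finset (A × B) → F := fun S => if S ⊆ G then 1 else 0

lemma hon_PD {A₁ : Finset A} {B₁ : Finset B} {G : Finset (A × B)}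
    (hG : ∀ e ∈ G, e.1 ∈ A₁ ∧ e.2 ∈ B₁)
    (hr : ∀ i ∈ A₁, ∃! b, (i, b) ∈ G) (hc : ∀ j ∈ B₁, ∃! a, (a, j) ∈ G) (d : ℕ) :
    PD d A₁ B₁ (hon G : Finset (A × B) → F) := by
  refine ⟨by simp [hon], ?_, ?_, ?_⟩
  · intro S hS
    have hSG : S ⊆ G := by
      by_contra h
      exact hS (by simp [hon, h])
    refine ⟨?_, fun e he => hG e (hSG he)⟩
    intro e he f hf
    constructor
    · intro h
      obtain ⟨b, hb, hu⟩ := hr e.1 (hG e (hSG he)).1
      have h1 := hu e.2 (hSG he)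
      have h2 := hu f.2 (by rw [h]; exact hSG hf)
      rw [h1, h2]
    · intro h
      obtain ⟨b, hb, hu⟩ := hc e.2 (hG e (hSG he)).2
      have h1 := hu e.1 (hSG he)
      have h2 := hu f.1 (by rw [h]; exact hSG hf)
      rw [h1, h2]
  · intro S _ i hi
    unfold rd hon
    by_cases hSG : S ⊆ G
    · obtain ⟨b, hb, hu⟩ := hr i hi
      rw [Finset.sum_eq_single b]
      · simp [hSG, Finset.insert_subset_iff, hb]
      · intro b' _ hb'
        have : (i, b') ∉ G := fun h => hb' (hu b' h)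
        simp [Finset.insert_subset_iff, this]
      · simp
    · simp [hSG, Finset.insert_subset_iff]
  · intro S _ j hj
    unfold cd hon
    by_cases hSG : S ⊆ G
    · obtain ⟨b, hb, hu⟩ := hc j hj
      rw [Finset.sum_eq_single b]
      · simp [hSG, Finset.insert_subset_iff, hb]
      · intro b' _ hb'
        have : (b', j) ∉ G := fun h => hb' (hu b' h)
        simp [Finset.insert_subset_iff, this]
      · simp
    · simp [hSG, Finset.insert_subset_iff]

lemma exists_hon {A₁ : Finset A} {B₁ : Finset B} (h : A₁.card = B₁.card) :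
    ∃ φ : Finset (A × B) → F, ∀ d, PD d A₁ B₁ φ := by
  let e := Finset.equivOfCardEq h
  let G : Finset (A × B) := A₁.attach.image (fun a => (a.1, (e a).1))
  have memG : ∀ a b, (a, b) ∈ G ↔ ∃ h : a ∈ A₁, (e ⟨a, h⟩).1 = b := by
    intro a b
    simp only [G, Finset.mem_image, Finset.mem_attach, true_and, Prod.mk.injEq, Subtype.exists]
    constructor
    · rintro ⟨a', h', rfl, h2⟩
      exact ⟨h', h2⟩
    · rintro ⟨h', h2⟩
      exact ⟨a, h', rfl, h2⟩
  refine ⟨hon G, fun d => hon_PD ?_ ?_ ?_ d⟩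
  · rintro ⟨a, b⟩ he
    obtain ⟨h', rfl⟩ := (memG a b).mp he
    exact ⟨h', (e ⟨a, h'⟩).2⟩
  · intro i hi
    refine ⟨(e ⟨i, hi⟩).1, (memG _ _).mpr ⟨hi, rfl⟩, ?_⟩
    intro b hb
    obtain ⟨_, rfl⟩ := (memG _ _).mp hb
    rfl
  · intro j hj
    refine ⟨(e.symm ⟨j, hj⟩).1, (memG _ _).mpr ⟨(e.symm ⟨j, hj⟩).2, by simp⟩, ?_⟩
    intro a ha
    obtain ⟨ha1, ha2⟩ := (memG _ _).mp ha
    have : e ⟨a, ha1⟩ = ⟨j, hj⟩ := Subtype.ext ha2
    rw [← this]
    simp

end defs

end Pool.Agent.OntoPHP
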