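import Pool.Agent.OntoPHP.Push

set_option autoImplicit false
set_option linter.unusedSectionVars false
set_option linter.unusedVariables false

namespace Pool.Agent.OntoPHP

open Finset

/-- Existence of designs of degree `d` for all sufficiently large sizes. -/
def Ex (F : Type) [Field F] (p d N : ℕ) : Prop :=
  ∀ (A B : Type) [Fintype A] [DecidableEq A] [Fintype B] [DecidableEq B] (c : ℕ),
    Fintype.card A = Fintype.card B + p ^ d * c → N ≤ Fintype.card B →
    ∃ φ : Finset (A × B) → F, PD d Finset.univ Finset.univ φ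

section

variable {A B I J F : Type} [Fintype A] [DecidableEq A] [Fintype B] [DecidableEq B]
  [Fintype I] [DecidableEq I] [Fintype J] [DecidableEq J] [Field F]

lemma univ_map_subtype (A₁ : Finset A) :
    (Finset.univ : Finset {x // x ∈ A₁}).map (Function.Embedding.subtype (fun x => x ∈ A₁)) = A₁ := by
  ext x; simp

lemma Ex.finset {p d N : ℕ} (h : Ex F p d N) (A₁ : Finset A) (B₁ : Finset B) (c : ℕ)
    (hc : A₁.card = B₁.card + p ^ d * c) (hN : N ≤ B₁.card) :
    ∃ φ : Finset (A × B) → F, PD d A₁ B₁ φ := by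
  obtain ⟨φ, hφ⟩ := h {x // x ∈ A₁} {x // x ∈ B₁} c (by simpa using hc) (by simpa using hN)
  refine ⟨push (Function.Embedding.subtype _) (Function.Embedding.subtype _) φ, ?_⟩
  have := push_PD (Function.Embedding.subtype (fun x => x ∈ A₁))
    (Function.Embedding.subtype (fun x => x ∈ B₁)) hφ
  rwa [univ_map_subtype, univ_map_subtype] at this

/-- Functionals supported on matchings that vanish at the empty set. -/
def S0 : Submodule F (Finset (A × B) → F) where
  carrier := {φ | Supp Finset.univ Finset.univ φ ∧ φ ∅ = 0}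
  add_mem' := by
    rintro φ ψ ⟨h1, h2⟩ ⟨h3, h4⟩
    refine ⟨?_, by simp [h2, h4]⟩
    intro S hS
    by_cases h : φ S = 0
    · exact h3 S (by intro h'; apply hS; simp [h, h'])
    · exact h1 S h
  zero_mem' := ⟨by intro S hS; simp at hS, by simp⟩
  smul_mem' := by
    rintro c φ ⟨h1, h2⟩
    refine ⟨?_, by simp [h2]⟩
    intro S hS
    exact h1 S (by intro h'; apply hS; simp [h'])

/-- Defects realised by functionals vanishing at the empty set. -/
noncomputable def E (d : ℕ) : Submodule F ((Finset (A × B) → A → F) × (Finset (A × B) → B → F)) :=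
  Submodule.map (T d Finset.univ Finset.univ) S0

lemma Supp.mono {A₁ A₂ : Finset A} {B₁ B₂ : Finset B} {φ : Finset (A × B) → F}
    (h : Supp A₁ B₁ φ) (hA : A₁ ⊆ A₂) (hB : B₁ ⊆ B₂) : Supp A₂ B₂ φ := by
  intro S hS
  obtain ⟨h1, h2⟩ := h S hS
  exact ⟨h1, fun e he => ⟨hA (h2 e he).1, hB (h2 e he).2⟩⟩

lemma sub_mem_E {d : ℕ} {Φ Ψ : Finset (A × B) → F} (h1 : Supp Finset.univ Finset.univ Φ)
    (h2 : Supp Finset.univ Finset.univ Ψ) (h : Φ ∅ = Ψ ∅) :
    T d Finset.univ Finset.univ Φ - T d Finset.univ Finset.univ Ψ ∈ (E d : Submodule F _) := by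
  refine ⟨Φ - Ψ, ⟨?_, by simp [h]⟩, by simp⟩
  intro S hS
  by_cases h : Φ S = 0
  · exact h2 S (by intro h'; apply hS; simp [h, h'])
  · exact h1 S h

/-- The defect of a pushed design. -/
noncomputable def tt (d : ℕ) (φ₀ : Finset (I × J) → F) (f : I ↪ A) (g : J ↪ B) :
    (Finset (A × B) → A → F) × (Finset (A × B) → B → F) :=
  T d (Finset.univ.map f) (Finset.univ.map g) (push f g φ₀)

lemma single_PD (a : A) (b : B) (d : ℕ) :
    PD d {a} {b} (hon {(a, b)} : Finset (A × B) → F) := by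
  apply hon_PD
  · intro e he
    rw [Finset.mem_singleton] at he
    subst he; simp
  · intro i hi
    rw [Finset.mem_singleton] at hi
    subst hi
    exact ⟨b, by simp, by intro y hy; simpa using hy⟩
  · intro i hi
    rw [Finset.mem_singleton] at hi
    subst hi
    exact ⟨a, by simp, by intro y hy; simpa using hy⟩

lemma PD.T_zero {d : ℕ} {A₁ : Finset A} {B₁ : Finset B} {φ : Finset (A × B) → F}
    (h : PD d A₁ B₁ φ) : T d A₁ B₁ φ = 0 := T_eq_zero h.row h.col

lemma move_aux {d : ℕ} {φ₀ : Finset (I × J) → F} (h₀ : PD d Finset.univ Finset.univ φ₀)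
    (f : I ↪ A) (g : J ↪ B) (a : A) (b : B)
    (ha : a ∉ Finset.univ.map f) (hb : b ∉ Finset.univ.map g)
    {ψ : Finset (A × B) → F}
    (hψ : PD d (Finset.univ \ (Finset.univ.map f ∪ {a})) (Finset.univ \ (Finset.univ.map g ∪ {b})) ψ) :
    ∃ Φ : Finset (A × B) → F, Supp Finset.univ Finset.univ Φ ∧ Φ ∅ = 1 ∧
      T (d + 1) Finset.univ Finset.univ Φ = tt (d + 1) φ₀ f g +
        T (d + 1) (Finset.univ \ (Finset.univ.map f ∪ {a})) (Finset.univ \ (Finset.univ.map g ∪ {b})) ψ := by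
  have hp := push_PD f g h₀
  have hs : PD d {a} {b} (hon {(a, b)} : Finset (A × B) → F) := single_PD a b d
  have hdA : Disjoint (Finset.univ.map f) {a} := by
    rw [Finset.disjoint_singleton_right]; exact ha
  have hdB : Disjoint (Finset.univ.map g) {b} := by
    rw [Finset.disjoint_singleton_right]; exact hb
  have h12 := PD_tp hdA hdB hp hs
  have hdA2 : Disjoint (Finset.univ.map f ∪ {a}) (Finset.univ \ (Finset.univ.map f ∪ {a})) :=
    Finset.disjoint_sdiff
  have hdB2 : Disjoint (Finset.univ.map g ∪ {b}) (Finset.univ \ (Finset.univ.map g ∪ {b})) :=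
    Finset.disjoint_sdiff
  have h123 := PD_tp hdA2 hdB2 h12 hψ
  refine ⟨_, h123.supp.mono (Finset.subset_univ _) (Finset.subset_univ _), h123.one, ?_⟩
  have e1 := T_tp hdA2 hdB2 h12 hψ
  rw [Finset.union_sdiff_of_subset (Finset.subset_univ _),
    Finset.union_sdiff_of_subset (Finset.subset_univ _)] at e1
  rw [e1, T_tp hdA hdB hp hs, (single_PD (F := F) a b (d + 1)).T_zero, add_zero]
  rfl

lemma move {d : ℕ} {φ₀ : Finset (I × J) → F} (h₀ : PD d Finset.univ Finset.univ φ₀)
    (f f' : I ↪ A) (g g' : J ↪ B) (a a' : A) (b b' : B)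
    (ha : a ∉ Finset.univ.map f) (hb : b ∉ Finset.univ.map g)
    (ha' : a' ∉ Finset.univ.map f') (hb' : b' ∉ Finset.univ.map g')
    (hf : Finset.univ.map f ∪ {a} = Finset.univ.map f' ∪ {a'})
    (hg : Finset.univ.map g ∪ {b} = Finset.univ.map g' ∪ {b'})
    (hψ : ∃ ψ : Finset (A × B) → F,
      PD d (Finset.univ \ (Finset.univ.map f ∪ {a})) (Finset.univ \ (Finset.univ.map g ∪ {b})) ψ) :
    tt (d + 1) φ₀ f g - tt (d + 1) φ₀ f' g' ∈ (E (d + 1) : Submodule F _) := by
  obtain ⟨ψ, hψ⟩ := hψ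
  obtain ⟨Φ, h1, h2, h3⟩ := move_aux h₀ f g a b ha hb hψ
  have hψ' := hψ
  rw [hf, hg] at hψ'
  obtain ⟨Φ', h1', h2', h3'⟩ := move_aux h₀ f' g' a' b' ha' hb' hψ'
  have := sub_mem_E (d := d + 1) h1 h1' (by rw [h2, h2'])
  rw [h3, h3', hf, hg] at this
  simpa using this

end

end Pool.Agent.OntoPHP
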