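import Pool.Agent.OntoPHP.Exist
import Pool.Agent.OntoPHP.Conn

set_option autoImplicit false
set_option linter.unusedSectionVars false
set_option linter.unusedVariables false

namespace Pool.Agent.OntoPHP

open Finset

section

variable {A B I J F : Type} [Fintype A] [DecidableEq A] [Fintype B] [DecidableEq B]
  [Fintype I] [DecidableEq I] [Fintype J] [DecidableEq J] [Field F]

lemma card_map_union {A I : Type} [Fintype A] [DecidableEq A] [Fintype I] (f : I ↪ A) (a : A)
    (ha : a ∉ Finset.univ.map f) :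
    (Finset.univ \ (Finset.univ.map f ∪ {a})).card = Fintype.card A - (Fintype.card I + 1) := by
  rw [Finset.card_sdiff_of_subset (Finset.subset_univ _), Finset.card_union_of_disjoint]
  · simp
  · rw [Finset.disjoint_singleton_right]; exact ha

lemma exists_notMem_map {A I : Type} [Fintype A] [DecidableEq A] [Fintype I] (f : I ↪ A)
    (h : Fintype.card I < Fintype.card A) : ∃ a, a ∉ Finset.univ.map f := by
  by_contra hcon
  push Not at hcon
  have h1 : Finset.univ.map f = Finset.univ := by ext; simp [hcon]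
  have h2 := Finset.card_map f (s := Finset.univ)
  rw [h1] at h2
  simp only [Finset.card_univ] at h2
  omega

/-- All pushed copies of a design have the same defect modulo `E`. -/
lemma all_equiv {p d N : ℕ} (hEx : Ex F p d N) {c k : ℕ}
    (hAB : Fintype.card A = Fintype.card B + p ^ d * (c + k))
    (hB : 2 * N + 1 ≤ Fintype.card B)
    (hJ : Fintype.card J = N) (hI : Fintype.card I = N + p ^ d * c)
    {φ₀ : Finset (I × J) → F} (h₀ : PD d Finset.univ Finset.univ φ₀)
    (f f' : I ↪ A) (g g' : J ↪ B) :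
    tt (d + 1) φ₀ f g - tt (d + 1) φ₀ f' g' ∈ (E (d + 1) : Submodule F _) := by
  have hIA : Fintype.card I < Fintype.card A := by
    rw [hI, hAB, mul_add]; omega
  have hJB : Fintype.card J < Fintype.card B := by omega
  have hψ : ∀ (f : I ↪ A) (g : J ↪ B) (a : A) (b : B), a ∉ Finset.univ.map f →
      b ∉ Finset.univ.map g → ∃ ψ : Finset (A × B) → F,
      PD d (Finset.univ \ (Finset.univ.map f ∪ {a})) (Finset.univ \ (Finset.univ.map g ∪ {b})) ψ := by
    intro f g a b ha hb
    apply hEx.finset _ _ k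
    · rw [card_map_union f a ha, card_map_union g b hb, hAB, hI, hJ, mul_add]
      omega
    · rw [card_map_union g b hb, hJ]; omega
  have key1 : ∀ (g : J ↪ B) (f f' : I ↪ A),
      tt (d + 1) φ₀ f g - tt (d + 1) φ₀ f' g ∈ (E (d + 1) : Submodule F _) := by
    intro g
    apply conn hIA (fun f f' => tt (d + 1) φ₀ f g - tt (d + 1) φ₀ f' g ∈ (E (d + 1) : Submodule F _))
    · intro f; simp
    · intro f1 f2 f3 h1 h2
      have := Submodule.add_mem _ h1 h2
      simpa using this
    · intro f t y hy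
      obtain ⟨b, hb⟩ := exists_notMem_map g hJB
      have hy' : y ∉ Finset.univ.map f := by simpa using hy
      refine move h₀ f (upd f t y hy) g g y (f t) b b hy' hb (notMem_map_upd f t y hy) hb
        (map_upd f t y hy).symm rfl (hψ f g y b hy' hb)
  have key2 : ∀ (f : I ↪ A) (g g' : J ↪ B),
      tt (d + 1) φ₀ f g - tt (d + 1) φ₀ f g' ∈ (E (d + 1) : Submodule F _) := by
    intro f
    apply conn hJB (fun g g' => tt (d + 1) φ₀ f g - tt (d + 1) φ₀ f g' ∈ (E (d + 1) : Submodule F _))
    · intro f; simp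
    · intro f1 f2 f3 h1 h2
      have := Submodule.add_mem _ h1 h2
      simpa using this
    · intro g t y hy
      obtain ⟨a, ha⟩ := exists_notMem_map f hIA
      have hy' : y ∉ Finset.univ.map g := by simpa using hy
      refine move h₀ f f g (upd g t y hy) a a y (g t) ha hy' ha (notMem_map_upd g t y hy)
        rfl (map_upd g t y hy).symm (hψ f g a y ha hy')
  have := Submodule.add_mem _ (key1 g f f') (key2 f' g g')
  simpa using this

lemma exists_blocks {p d N : ℕ} (hEx : Ex F p d N) {c k : ℕ}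
    (hAB : Fintype.card A = Fintype.card B + p ^ d * (c + k))
    (hB : 2 * N + 1 ≤ Fintype.card B)
    (hJ : Fintype.card J = N) (hI : Fintype.card I = N + p ^ d * c)
    {φ₀ : Finset (I × J) → F} (h₀ : PD d Finset.univ Finset.univ φ₀)
    (f₀ : I ↪ A) (g₀ : J ↪ B) :
    ∀ (r : ℕ) (A' : Finset A) (B' : Finset B), A'.card = B'.card + r * (p ^ d * c) →
      r * N ≤ B'.card → ∃ Φ : Finset (A × B) → F, PD d A' B' Φ ∧
        T (d + 1) A' B' Φ - (r : F) • tt (d + 1) φ₀ f₀ g₀ ∈ (E (d + 1) : Submodule F _) := by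
  intro r
  induction r with
  | zero =>
    intro A' B' h1 _
    obtain ⟨φ, hφ⟩ := exists_hon (F := F) (A₁ := A') (B₁ := B') (by simpa using h1)
    refine ⟨φ, hφ d, ?_⟩
    rw [(hφ (d + 1)).T_zero]
    simp
  | succ r ih =>
    intro A' B' h1 h2
    have hI' : Fintype.card I ≤ A'.card := by
      rw [hI, h1]
      have : N ≤ B'.card := le_trans (by nlinarith) h2
      nlinarith
    have hJ' : Fintype.card J ≤ B'.card := by
      rw [hJ]; exact le_trans (by nlinarith) h2
    obtain ⟨f₁⟩ := Function.Embedding.nonempty_of_card_le (α := I) (β := {x // x ∈ A'})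
      (by simpa using hI')
    obtain ⟨g₁⟩ := Function.Embedding.nonempty_of_card_le (α := J) (β := {x // x ∈ B'})
      (by simpa using hJ')
    let f : I ↪ A := f₁.trans (Function.Embedding.subtype _)
    let g : J ↪ B := g₁.trans (Function.Embedding.subtype _)
    have hfA : Finset.univ.map f ⊆ A' := by
      intro x hx
      simp only [Finset.mem_map, Finset.mem_univ, true_and] at hx
      obtain ⟨u, rfl⟩ := hx
      exact (f₁ u).2
    have hgB : Finset.univ.map g ⊆ B' := by
      intro x hx
      simp only [Finset.mem_map, Finset.mem_univ, true_and] at hx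
      obtain ⟨u, rfl⟩ := hx
      exact (g₁ u).2
    have cA : (A' \ Finset.univ.map f).card = A'.card - Fintype.card I := by
      rw [Finset.card_sdiff_of_subset hfA]; simp
    have cB : (B' \ Finset.univ.map g).card = B'.card - Fintype.card J := by
      rw [Finset.card_sdiff_of_subset hgB]; simp
    obtain ⟨Φ₁, hΦ₁, hT₁⟩ := ih (A' \ Finset.univ.map f) (B' \ Finset.univ.map g)
      (by rw [cA, cB, hI, hJ, h1]; rw [hJ] at hJ'; ring_nf; omega)
      (by rw [cB, hJ]; have : (r + 1) * N = r * N + N := by ring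
          omega)
    have hp := push_PD f g h₀
    have hdA : Disjoint (Finset.univ.map f) (A' \ Finset.univ.map f) := Finset.disjoint_sdiff
    have hdB : Disjoint (Finset.univ.map g) (B' \ Finset.univ.map g) := Finset.disjoint_sdiff
    have hPD := PD_tp hdA hdB hp hΦ₁
    have hT := T_tp hdA hdB hp hΦ₁
    rw [Finset.union_sdiff_of_subset hfA, Finset.union_sdiff_of_subset hgB] at hPD hT
    refine ⟨_, hPD, ?_⟩
    rw [hT]
    have h3 := all_equiv hEx hAB hB hJ hI h₀ f f₀ g g₀
    have h4 := Submodule.add_mem _ h3 hT₁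
    convert h4 using 1
    have : T (d + 1) (Finset.univ.map f) (Finset.univ.map g) (push f g φ₀) = tt (d + 1) φ₀ f g := rfl
    rw [this]
    push_cast
    rw [add_smul, one_smul]
    abel

theorem ex_step {p d N : ℕ} (hp : (p : F) = 0) (hp1 : 1 ≤ p) (hEx : Ex F p d N) :
    Ex F p (d + 1) ((p + 2) * N + 1) := by
  intro A B _ _ _ _ c hAB hB
  -- the reference design
  have hIJ := hEx (Fin (N + p ^ d * c)) (Fin N) c (by simp) (by simp)
  obtain ⟨φ₀, h₀⟩ := hIJ
  obtain ⟨q, rfl⟩ : ∃ q, p = q + 1 := ⟨p - 1, by omega⟩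
  have hAB' : Fintype.card A = Fintype.card B + (q + 1) ^ d * (c + q * c) := by
    rw [hAB]; ring
  have hB' : 2 * N + 1 ≤ Fintype.card B := le_trans (by nlinarith) hB
  obtain ⟨f₀⟩ := Function.Embedding.nonempty_of_card_le (α := Fin (N + (q + 1) ^ d * c)) (β := A)
    (by rw [hAB', Fintype.card_fin, mul_add]; omega)
  obtain ⟨g₀⟩ := Function.Embedding.nonempty_of_card_le (α := Fin N) (β := B)
    (by rw [Fintype.card_fin]; omega)
  obtain ⟨Φ, hΦ, hT⟩ := exists_blocks hEx hAB' hB' (by simp) (by simp) h₀ f₀ g₀ (q + 1)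
    Finset.univ Finset.univ (by rw [Finset.card_univ, Finset.card_univ, hAB]; ring)
    (by rw [Finset.card_univ]; nlinarith)
  rw [hp, zero_smul, sub_zero] at hT
  obtain ⟨Ψ, ⟨hΨ1, hΨ2⟩, hΨ3⟩ := hT
  have hz : T (d + 1) Finset.univ Finset.univ (Φ - Ψ) = 0 := by
    rw [map_sub, hΨ3, sub_self]
  refine ⟨Φ - Ψ, ⟨?_, ?_, (of_T_eq_zero hz).1, (of_T_eq_zero hz).2⟩⟩
  · simp [hΦ.one, hΨ2]
  · intro S hS
    by_cases h : Φ S = 0
    · exact hΨ1 S (by intro h'; apply hS; simp [h, h'])
    · exact hΦ.supp S h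

theorem ex_all {p : ℕ} (hp1 : 1 ≤ p) :
    ∀ d, ∃ N, ∀ (F : Type) [Field F], (p : F) = 0 → Ex F p d N := by
  intro d
  induction d with
  | zero =>
    refine ⟨0, ?_⟩
    intro F _ hp A B _ _ _ _ c _ _
    refine ⟨fun S => if S = ∅ then 1 else 0, ⟨by simp, ?_, ?_, ?_⟩⟩
    · intro S hS
      by_cases h : S = ∅
      · subst h
        exact ⟨by intro e he; simp at he, by intro e he; simp at he⟩
      · simp [h] at hS
    · intro S hS; omega
    · intro S hS; omega
  | succ d ih =>
    obtain ⟨N, hN⟩ := ih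
    exact ⟨_, fun F _ hp => ex_step hp hp1 (hN F hp)⟩

end

end Pool.Agent.OntoPHP
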