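import Pool.Agent.OntoPHP.ChainMain
import Pool.Agent.OntoPHP.Main

set_option autoImplicit false
set_option linter.unusedSectionVars false
set_option linter.unusedVariables false

namespace Pool.Agent.OntoPHP

open Finset MvPolynomial

section

variable {A B F : Type} [Fintype A] [DecidableEq A] [Fintype B] [DecidableEq B] [Field F]

/-- The axioms of the onto functional pigeonhole principle. -/
def Ax (A B F : Type) [Fintype A] [DecidableEq A] [Fintype B] [DecidableEq B] [Field F]
    (f : MvPolynomial (A × B) F) : Prop :=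
  (∃ v : A × B, f = X v ^ 2 - X v) ∨
  (∃ i : A, f = 1 - ∑ j : B, X (i, j)) ∨
  (∃ i : A, ∃ j k : B, j ≠ k ∧ f = X (i, j) * X (i, k)) ∨
  (∃ i i' : A, ∃ j : B, i ≠ i' ∧ f = X (i, j) * X (i', j)) ∨
  (∃ j : B, f = 1 - ∑ i : A, X (i, j))

/-- The iterated closure. -/
noncomputable def Vc (A B F : Type) [Fintype A] [DecidableEq A] [Fintype B] [DecidableEq B] [Field F]
    (d : ℕ) : ℕ → Submodule F (MvPolynomial (A × B) F)
  | 0 => Submodule.span F {f | Ax A B F f}
  | k + 1 => Vc A B F d k ⊔ Submodule.span F
      {h | ∃ f ∈ Vc A B F d k, ∃ v : A × B, (X v * f).totalDegree ≤ d ∧ h = X v * f}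

lemma Vc_mono (d : ℕ) : Monotone (Vc A B F d) :=
  monotone_nat_of_le_succ (fun _ => le_sup_left)

lemma Ax_degree {f : MvPolynomial (A × B) F} (h : Ax A B F f) : f.totalDegree ≤ 2 := by
  rcases h with ⟨v, rfl⟩ | ⟨i, rfl⟩ | ⟨i, j, k, _, rfl⟩ | ⟨i, i', j, _, rfl⟩ | ⟨j, rfl⟩
  · refine le_trans (totalDegree_sub _ _) (max_le ?_ ?_)
    · refine le_trans (totalDegree_pow _ _) ?_
      rw [totalDegree_X]
    · rw [totalDegree_X]; omega
  · refine le_trans (totalDegree_sub _ _) (max_le ?_ ?_)
    · rw [totalDegree_one]; omega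
    · refine le_trans (totalDegree_finsetSum _ _) (Finset.sup_le ?_)
      intro j _
      rw [totalDegree_X]; omega
  · refine le_trans (totalDegree_mul _ _) ?_
    rw [totalDegree_X, totalDegree_X]
  · refine le_trans (totalDegree_mul _ _) ?_
    rw [totalDegree_X, totalDegree_X]
  · refine le_trans (totalDegree_sub _ _) (max_le ?_ ?_)
    · rw [totalDegree_one]; omega
    · refine le_trans (totalDegree_finsetSum _ _) (Finset.sup_le ?_)
      intro j _
      rw [totalDegree_X]; omega

lemma Vc_degree {d : ℕ} (hd : 2 ≤ d) (k : ℕ) :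
    Vc A B F d k ≤ restrictTotalDegree (A × B) F d := by
  induction k with
  | zero =>
    unfold Vc
    rw [Submodule.span_le]
    intro f hf
    rw [SetLike.mem_coe, mem_restrictTotalDegree]
    exact le_trans (Ax_degree hf) hd
  | succ k ih =>
    unfold Vc
    apply sup_le ih
    rw [Submodule.span_le]
    rintro _ ⟨f, _, v, hdeg, rfl⟩
    rw [SetLike.mem_coe, mem_restrictTotalDegree]
    exact hdeg

lemma Ax_rename {f : MvPolynomial (A × B) F} (h : Ax A B F f) (σ : Equiv.Perm A)
    (τ : Equiv.Perm B) : Ax A B F (rename (Prod.map σ τ) f) := by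
  rcases h with ⟨v, rfl⟩ | ⟨i, rfl⟩ | ⟨i, j, k, hjk, rfl⟩ | ⟨i, i', j, hii, rfl⟩ | ⟨j, rfl⟩
  · left
    exact ⟨Prod.map σ τ v, by simp⟩
  · right; left
    refine ⟨σ i, ?_⟩
    simp only [map_sub, map_one, map_sum, rename_X, Prod.map_apply]
    rw [← Equiv.sum_comp τ (fun j => (X (σ i, j) : MvPolynomial (A × B) F))]
  · right; right; left
    exact ⟨σ i, τ j, τ k, fun h => hjk (τ.injective h), by simp⟩
  · right; right; right; left
    exact ⟨σ i, σ i', τ j, fun h => hii (σ.injective h), by simp⟩
  · right; right; right; right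
    refine ⟨τ j, ?_⟩
    simp only [map_sub, map_one, map_sum, rename_X, Prod.map_apply]
    rw [← Equiv.sum_comp σ (fun i => (X (i, τ j) : MvPolynomial (A × B) F))]

lemma Vc_rename {d : ℕ} (σ : Equiv.Perm A) (τ : Equiv.Perm B) (k : ℕ) :
    ∀ f ∈ Vc A B F d k, rename (Prod.map σ τ) f ∈ Vc A B F d k := by
  induction k with
  | zero =>
    intro f hf
    unfold Vc at hf ⊢
    induction hf using Submodule.span_induction with
    | mem x hx => exact Submodule.subset_span (Ax_rename hx σ τ)
    | zero => simp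
    | add x y _ _ hx hy => rw [map_add]; exact Submodule.add_mem _ hx hy
    | smul a x _ hx => rw [map_smul]; exact Submodule.smul_mem _ a hx
  | succ k ih =>
    intro f hf
    unfold Vc at hf ⊢
    obtain ⟨y, hy, z, hz, rfl⟩ := Submodule.mem_sup.mp hf
    rw [map_add]
    apply Submodule.add_mem_sup (ih y hy)
    clear hf
    induction hz using Submodule.span_induction with
    | mem x hx =>
      obtain ⟨f, hf, v, hdeg, rfl⟩ := hx
      apply Submodule.subset_span
      refine ⟨rename (Prod.map σ τ) f, ih f hf, Prod.map σ τ v, ?_, by simp⟩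
      have : X (Prod.map σ τ v) * rename (Prod.map σ τ) f = rename (Prod.map σ τ) (X v * f) := by
        simp
      rw [this]
      exact le_trans (totalDegree_rename_le _ _) hdeg
    | zero => simp
    | add x y _ _ hx hy =>
      rw [map_add]
      exact Submodule.add_mem _ hx hy
    | smul a x _ hx =>
      rw [map_smul]
      exact Submodule.smul_mem _ _ hx

/-- The factor attached to a pair of points. -/
noncomputable def fac (F : Type) [Field F] : A ⊕ B → A ⊕ B → MvPolynomial (A × B) F
  | Sum.inl a, Sum.inr b => X (a, b)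
  | _, _ => 1

/-- The monomial attached to a tuple. -/
noncomputable def mon (F : Type) [Field F] (d : ℕ) (c : Fin (d * 2) → A ⊕ B) :
    MvPolynomial (A × B) F :=
  ∏ t : Fin d, fac F (c (finProdFinEquiv (t, 0))) (c (finProdFinEquiv (t, 1)))

/-- From functions on tuples to polynomials. -/
noncomputable def Phi (A B F : Type) [Fintype A] [DecidableEq A] [Fintype B] [DecidableEq B]
    [Field F] (d : ℕ) :
    ((Fin (d * 2) → A ⊕ B) → F) →ₗ[F] MvPolynomial (A × B) F where
  toFun u := ∑ c, u c • mon F d c
  map_add' u v := by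
    simp only [Pi.add_apply, add_smul, Finset.sum_add_distrib]
  map_smul' a u := by
    simp only [Pi.smul_apply, smul_eq_mul, mul_smul, RingHom.id_apply, Finset.smul_sum]

lemma exists_mon (a₀ : A) : ∀ (d : ℕ) (α : (A × B) →₀ ℕ), α.degree ≤ d →
    ∃ g : Fin d → (A ⊕ B) × (A ⊕ B), ∏ t, fac F (g t).1 (g t).2 = monomial α (1 : F) := by
  intro d
  induction d with
  | zero =>
    intro α hα
    have : α = 0 := by
      rw [← Finsupp.degree_eq_zero_iff]; omega
    subst this
    exact ⟨Fin.elim0, by simp⟩
  | succ d ih =>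
    intro α hα
    by_cases h0 : α = 0
    · subst h0
      refine ⟨fun _ => (Sum.inl a₀, Sum.inl a₀), ?_⟩
      simp [fac]
    · obtain ⟨v, hv⟩ := Finsupp.ne_iff.mp h0
      have hv' : 1 ≤ α v := Nat.one_le_iff_ne_zero.mpr hv
      have hle : Finsupp.single v 1 ≤ α := by
        rw [Finsupp.single_le_iff]; exact hv'
      have hsum : Finsupp.single v 1 + (α - Finsupp.single v 1) = α := add_tsub_cancel_of_le hle
      have hdeg : (α - Finsupp.single v 1).degree ≤ d := by
        have := congrArg Finsupp.degree hsum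
        rw [map_add, Finsupp.degree_single] at this
        omega
      obtain ⟨g, hg⟩ := ih _ hdeg
      refine ⟨Fin.cons (Sum.inl v.1, Sum.inr v.2) g, ?_⟩
      rw [Fin.prod_univ_succ]
      simp only [Fin.cons_zero, Fin.cons_succ]
      rw [hg]
      conv_rhs => rw [← hsum]
      simp only [fac, X]
      rw [monomial_mul, one_mul]

lemma mon_mem_range (d : ℕ) (c : Fin (d * 2) → A ⊕ B) : mon F d c ∈ LinearMap.range (Phi A B F d) := by
  classical
  refine ⟨Pi.single c 1, ?_⟩
  simp only [Phi, LinearMap.coe_mk, AddHom.coe_mk]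
  rw [Finset.sum_eq_single c]
  · simp
  · intro b _ hb
    rw [Pi.single_eq_of_ne hb, zero_smul]
  · simp

lemma range_Phi [Nonempty A] (d : ℕ) :
    restrictTotalDegree (A × B) F d ≤ LinearMap.range (Phi A B F d) := by
  intro f hf
  rw [mem_restrictTotalDegree] at hf
  rw [f.as_sum]
  apply Submodule.sum_mem
  intro α hα
  have hdeg : α.degree ≤ d := le_trans (by
    have := le_totalDegree hα
    rwa [Finsupp.degree_eq_sum, ← Finsupp.sum_fintype (f := α) (g := fun _ n => n)] 
    intro i; rfl) hf
  obtain ⟨g, hg⟩ := exists_mon (F := F) (Classical.arbitrary A) d α hdeg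
  have : monomial α (coeff α f) = coeff α f • monomial α (1 : F) := by
    rw [smul_monomial, smul_eq_mul, mul_one]
  rw [this, ← hg]
  apply Submodule.smul_mem
  have hm : (∏ t, fac F (g t).1 (g t).2) = mon F d (fun k =>
      if (finProdFinEquiv.symm k).2 = 0 then (g (finProdFinEquiv.symm k).1).1
        else (g (finProdFinEquiv.symm k).1).2) := by
    unfold mon
    apply Finset.prod_congr rfl
    intro t _
    simp
  rw [hm]
  exact mon_mem_range d _

end

end Pool.Agent.OntoPHP
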