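import Pool.Agent.OntoPHP.Final

set_option autoImplicit false
set_option linter.unusedSectionVars false
set_option linter.unusedVariables false

namespace Pool.Agent.OntoPHP

open Finset MvPolynomial

section

variable {A B F : Type} [Fintype A] [DecidableEq A] [Fintype B] [DecidableEq B] [Field F]

/-- Colour preserving permutations of `A ⊕ B` come from pairs of permutations. -/
lemma exists_pair (π : Equiv.Perm (A ⊕ B)) (hπ : ∀ x, (π x).isLeft = x.isLeft) :
    ∃ (σ : Equiv.Perm A) (τ : Equiv.Perm B), (∀ a, π (Sum.inl a) = Sum.inl (σ a)) ∧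
      ∀ b, π (Sum.inr b) = Sum.inr (τ b) := by
  have h1 : ∀ a, ∃ a', π (Sum.inl a) = Sum.inl a' := by
    intro a
    have := hπ (Sum.inl a)
    rcases h : π (Sum.inl a) with a' | b'
    · exact ⟨a', rfl⟩
    · rw [h] at this; simp at this
  have h2 : ∀ b, ∃ b', π (Sum.inr b) = Sum.inr b' := by
    intro b
    have := hπ (Sum.inr b)
    rcases h : π (Sum.inr b) with a' | b'
    · rw [h] at this; simp at this
    · exact ⟨b', rfl⟩
  choose s hs using h1
  choose t ht using h2
  have is : Function.Injective s := by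
    intro a a' h
    have : π (Sum.inl a) = π (Sum.inl a') := by rw [hs, hs, h]
    simpa using π.injective this
  have it : Function.Injective t := by
    intro a a' h
    have : π (Sum.inr a) = π (Sum.inr a') := by rw [ht, ht, h]
    simpa using π.injective this
  exact ⟨Equiv.ofBijective s (Finite.injective_iff_bijective.mp is),
    Equiv.ofBijective t (Finite.injective_iff_bijective.mp it), hs, ht⟩

lemma fac_perm (π : Equiv.Perm (A ⊕ B)) (σ : Equiv.Perm A) (τ : Equiv.Perm B)
    (h1 : ∀ a, π (Sum.inl a) = Sum.inl (σ a)) (h2 : ∀ b, π (Sum.inr b) = Sum.inr (τ b))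
    (x y : A ⊕ B) : fac F (π x) (π y) = rename (Prod.map σ τ) (fac F x y) := by
  rcases x with a | b <;> rcases y with a' | b' <;> simp [fac, h1, h2]

lemma mon_perm (d : ℕ) (π : Equiv.Perm (A ⊕ B)) (σ : Equiv.Perm A) (τ : Equiv.Perm B)
    (h1 : ∀ a, π (Sum.inl a) = Sum.inl (σ a)) (h2 : ∀ b, π (Sum.inr b) = Sum.inr (τ b))
    (c : Fin (d * 2) → A ⊕ B) :
    mon F d (fun t => π (c t)) = rename (Prod.map σ τ) (mon F d c) := by
  unfold mon
  rw [map_prod]
  apply Finset.prod_congr rfl
  intro t _
  exact fac_perm π σ τ h1 h2 _ _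

lemma inv_comap (d k : ℕ) :
    Inv (F := F) (fun x : A ⊕ B => x.isLeft) ∅ ((Vc A B F d k).comap (Phi A B F d)) := by
  intro π hπ u hu
  rw [Submodule.mem_comap] at hu ⊢
  obtain ⟨σ, τ, h1, h2⟩ := exists_pair π⁻¹ hπ.inv.1
  have : Phi A B F d (act π u) = rename (Prod.map σ τ) (Phi A B F d u) := by
    simp only [Phi, LinearMap.coe_mk, AddHom.coe_mk, map_sum, map_smul, act_apply]
    have e : (∑ c : Fin (d * 2) → A ⊕ B, u (fun t => π (c t)) • mon F d c) =
        ∑ c : Fin (d * 2) → A ⊕ B, u c • mon F d (fun t => π⁻¹ (c t)) := by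
      apply Finset.sum_nbij' (fun c t => π (c t)) (fun c t => π⁻¹ (c t))
      · intro _ _; exact Finset.mem_univ _
      · intro _ _; exact Finset.mem_univ _
      · intro c _; funext t; exact π.symm_apply_apply _
      · intro c _; funext t; exact π.apply_symm_apply _
      · intro c _
        congr 2
        funext t; exact (π.symm_apply_apply _).symm
    rw [e]
    apply Finset.sum_congr rfl
    intro c _
    rw [mon_perm d π⁻¹ σ τ h1 h2]
  rw [this]
  exact Vc_rename σ τ k _ hu

/-- The closure process stabilises after a bounded number of steps. -/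
theorem closure_stable (d : ℕ) (hd : 2 ≤ d) : ∃ L n₀ : ℕ, ∀ (F : Type) [Field F] (A B : Type)
    [Fintype A] [DecidableEq A] [Fintype B] [DecidableEq B], n₀ ≤ Fintype.card A →
    n₀ ≤ Fintype.card B → ∃ m, m ≤ L ∧ Vc A B F d m = Vc A B F d (m + 1) := by
  obtain ⟨L, n₀, h⟩ := chain_bound (d * 2) 0
  refine ⟨L, max n₀ 1, ?_⟩
  intro F _ A B _ _ _ _ hA hB
  haveI : Nonempty A := Fintype.card_pos_iff.mp (lt_of_lt_of_le Nat.one_pos
    (le_trans (le_max_right _ _) hA))
  have hj := h F (A ⊕ B) (fun x => x.isLeft) ∅ (by simp) (by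
    intro b
    rcases b with _ | _
    · have : (Finset.univ.filter (fun x : A ⊕ B => x.isLeft = false)) =
          Finset.univ.map Function.Embedding.inr := by
        ext x; rcases x with a | b <;> simp
      rw [this, Finset.card_map, Finset.card_univ]
      exact le_trans (le_max_left _ _) hB
    · have : (Finset.univ.filter (fun x : A ⊕ B => x.isLeft = true)) =
          Finset.univ.map Function.Embedding.inl := by
        ext x; rcases x with a | b <;> simp
      rw [this, Finset.card_map, Finset.card_univ]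
      exact le_trans (le_max_left _ _) hA)
    (fun k => (Vc A B F d k).comap (Phi A B F d))
    (fun a b hab => Submodule.comap_mono (Vc_mono d hab))
    (fun k => inv_comap d k)
  obtain ⟨m, hm, he⟩ := exists_stable hj
  refine ⟨m, hm, ?_⟩
  have hr : ∀ k, Vc A B F d k ≤ LinearMap.range (Phi A B F d) := fun k =>
    le_trans (Vc_degree hd k) (range_Phi d)
  have h1 := Submodule.map_comap_eq_of_le (hr m)
  have h2 := Submodule.map_comap_eq_of_le (hr (m + 1))
  rw [← h1, ← h2]
  exact congrArg (Submodule.map (Phi A B F d)) he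

/-- Functional attached to a design. -/
noncomputable def Lf (φ : Finset (A × B) → F) : MvPolynomial (A × B) F →ₗ[F] F :=
  (basisMonomials (A × B) F).constr F (fun α => φ α.support)

lemma Lf_monomial (φ : Finset (A × B) → F) (α : (A × B) →₀ ℕ) :
    Lf φ (monomial α 1) = φ α.support := by
  have := (basisMonomials (A × B) F).constr_basis F (fun α => φ α.support) α
  rwa [coe_basisMonomials] at this

lemma support_add_single (α : (A × B) →₀ ℕ) (v : A × B) (k : ℕ) (hk : k ≠ 0) :
    (α + Finsupp.single v k).support = insert v α.support := by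
  ext x
  simp only [Finsupp.mem_support_iff, Finset.mem_insert, Finsupp.add_apply]
  by_cases hx : x = v
  · subst hx
    simp [hk]
  · simp [Finsupp.single_apply, Ne.symm hx, hx]

lemma X_pow_mul (α : (A × B) →₀ ℕ) (v : A × B) (k : ℕ) :
    (monomial α (1 : F)) * X v ^ k = monomial (α + Finsupp.single v k) 1 := by
  rw [X_pow_eq_monomial, monomial_mul, one_mul]

lemma Lf_vanish {D d : ℕ} {φ : Finset (A × B) → F} (h : PD D Finset.univ Finset.univ φ) (k : ℕ) :
    ∀ f ∈ Vc A B F d k, ∀ β : (A × B) →₀ ℕ, β.support.card + k < D →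
      Lf φ (monomial β 1 * f) = 0 := by
  have hX : ∀ (β : (A × B) →₀ ℕ) (v : A × B), (monomial β (1 : F)) * X v =
      monomial (β + Finsupp.single v 1) 1 := by
    intro β v
    rw [← pow_one (X v), X_pow_mul]
  induction k with
  | zero =>
    intro f hf β hβ
    unfold Vc at hf
    induction hf using Submodule.span_induction with
    | mem x hx =>
      rcases hx with ⟨v, rfl⟩ | ⟨i, rfl⟩ | ⟨i, j, k, hjk, rfl⟩ | ⟨i, i', j, hii, rfl⟩ | ⟨j, rfl⟩
      · rw [mul_sub, map_sub, X_pow_mul, hX, Lf_monomial, Lf_monomial,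
          support_add_single _ _ _ two_ne_zero, support_add_single _ _ _ one_ne_zero, sub_self]
      · rw [mul_sub, mul_one, map_sub, Finset.mul_sum, map_sum, Lf_monomial]
        have := h.row β.support (by omega) i (Finset.mem_univ _)
        unfold rd at this
        simp only [hX, Lf_monomial, support_add_single _ _ _ one_ne_zero]
        rw [sub_eq_zero] at this ⊢
        exact this.symm
      · rw [← mul_assoc, hX, hX, Lf_monomial, support_add_single _ _ _ one_ne_zero,
          support_add_single _ _ _ one_ne_zero]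
        by_contra hne
        have := (h.supp _ hne).1 (i, j) (by simp) (i, k) (by simp)
        exact hjk (this.mp rfl)
      · rw [← mul_assoc, hX, hX, Lf_monomial, support_add_single _ _ _ one_ne_zero,
          support_add_single _ _ _ one_ne_zero]
        by_contra hne
        have := (h.supp _ hne).1 (i, j) (by simp) (i', j) (by simp)
        exact hii (this.mpr rfl)
      · rw [mul_sub, mul_one, map_sub, Finset.mul_sum, map_sum, Lf_monomial]
        have := h.col β.support (by omega) j (Finset.mem_univ _)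
        unfold cd at this
        simp only [hX, Lf_monomial, support_add_single _ _ _ one_ne_zero]
        rw [sub_eq_zero] at this ⊢
        exact this.symm
    | zero => simp
    | add x y _ _ hx hy => rw [mul_add, map_add, hx, hy, add_zero]
    | smul a x _ hx => rw [mul_smul_comm, map_smul, hx, smul_zero]
  | succ k ih =>
    intro f hf β hβ
    unfold Vc at hf
    obtain ⟨y, hy, z, hz, rfl⟩ := Submodule.mem_sup.mp hf
    rw [mul_add, map_add, ih y hy β (by omega), zero_add]
    clear hf
    induction hz using Submodule.span_induction with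
    | mem x hx =>
      obtain ⟨f, hf, v, _, rfl⟩ := hx
      rw [← mul_assoc, hX]
      apply ih f hf
      rw [support_add_single _ _ _ one_ne_zero]
      have := Finset.card_insert_le v β.support
      omega
    | zero => simp
    | add x y _ _ hx hy => rw [mul_add, map_add, hx, hy, add_zero]
    | smul a x _ hx => rw [mul_smul_comm, map_smul, hx, smul_zero]

theorem main (p : ℕ) (hp : p.Prime) (d : ℕ) (hd : 2 ≤ d) : ∃ N : ℕ, ∀ n ℓ : ℕ, N ≤ n → N ≤ ℓ →
    ∀ (F : Type) [Field F] [CharP F p],
      ∃ m, Vc (Fin (n + p ^ ℓ)) (Fin n) F d m = Vc (Fin (n + p ^ ℓ)) (Fin n) F d (m + 1) ∧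
        (1 : MvPolynomial (Fin (n + p ^ ℓ) × Fin n) F) ∉ Vc (Fin (n + p ^ ℓ)) (Fin n) F d m := by
  obtain ⟨L, n₀, h⟩ := closure_stable d hd
  obtain ⟨N, hN⟩ := ex_all hp.one_le (L + 1)
  refine ⟨max (max n₀ N) (L + 1), ?_⟩
  intro n ℓ hn hℓ F _ _
  have e1 := le_max_left (max n₀ N) (L + 1)
  have e2 := le_max_right (max n₀ N) (L + 1)
  have e3 := le_max_left n₀ N
  have e4 := le_max_right n₀ N
  obtain ⟨m, hm, hst⟩ := h F (Fin (n + p ^ ℓ)) (Fin n)
    (by rw [Fintype.card_fin]; omega) (by rw [Fintype.card_fin]; omega)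
  refine ⟨m, hst, ?_⟩
  obtain ⟨φ, hφ⟩ := hN F (CharP.cast_eq_zero F p) (Fin (n + p ^ ℓ)) (Fin n) (p ^ (ℓ - (L + 1)))
    (by
      rw [Fintype.card_fin, Fintype.card_fin, ← pow_add]
      congr 2
      omega)
    (by rw [Fintype.card_fin]; omega)
  intro h1
  have := Lf_vanish hφ m 1 h1 0 (by simp; omega)
  rw [mul_one, Lf_monomial, Finsupp.support_zero, hφ.one] at this
  exact one_ne_zero this

end

end Pool.Agent.OntoPHP
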