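import Mathlib

set_option autoImplicit false
set_option linter.unusedSectionVars false
set_option linter.unusedVariables false

namespace Pool.Agent.OntoPHP

open Finset
open scoped Classical

section

variable {F W W' : Type} [Field F] [AddCommGroup W] [Module F W] [AddCommGroup W'] [Module F W']

/-- Number of indices below `n` at which the sequence changes. -/
noncomputable def jumps {α : Type} (c : ℕ → α) (n : ℕ) : ℕ :=
  ((Finset.range n).filter (fun m => c m ≠ c (m + 1))).card

lemma jumps_le_add {α β γ : Type} {c : ℕ → α} {a : ℕ → β} {b : ℕ → γ}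
    (h : ∀ m, a m = a (m + 1) → b m = b (m + 1) → c m = c (m + 1)) (n : ℕ) :
    jumps c n ≤ jumps a n + jumps b n := by
  unfold jumps
  rw [← Nat.add_zero ((Finset.filter _ _).card)]
  refine le_trans ?_ (Finset.card_union_le _ _)
  rw [Nat.add_zero]
  apply Finset.card_le_card
  intro m hm
  simp only [Finset.mem_filter, Finset.mem_union, Finset.mem_range] at hm ⊢
  by_contra hcon
  push Not at hcon
  exact hm.2 (h m (hcon.1 hm.1) (hcon.2 hm.1))

lemma jumps_succ {α : Type} (c : ℕ → α) (n : ℕ) :
    jumps c (n + 1) = jumps c n + (if c n ≠ c (n + 1) then 1 else 0) := by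
  unfold jumps
  rw [Finset.range_add_one, Finset.filter_insert]
  split_ifs with h
  · rw [Finset.card_insert_of_notMem]
    simp
  · simp

lemma jumps_le_finrank [FiniteDimensional F W] {c : ℕ → Submodule F W} (hc : Monotone c) (n : ℕ) :
    jumps c n ≤ Module.finrank F W := by
  have key : ∀ n, jumps c n ≤ Module.finrank F (c n) := by
    intro n
    induction n with
    | zero => simp [jumps]
    | succ n ih =>
      rw [jumps_succ]
      split_ifs with h
      · have hlt : c n < c (n + 1) := lt_of_le_of_ne (hc (Nat.le_succ n)) h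
        have := Submodule.finrank_lt_finrank_of_lt hlt
        omega
      · have : c n = c (n + 1) := by
          by_contra hne; exact h hne
        rw [← this]; omega
  exact le_trans (key n) (Submodule.finrank_le _)

lemma exists_stable {α : Type} {c : ℕ → α} {L : ℕ} (h : ∀ n, jumps c n ≤ L) :
    ∃ m, m ≤ L ∧ c m = c (m + 1) := by
  by_contra hcon
  push Not at hcon
  have h1 : jumps c (L + 1) = L + 1 := by
    unfold jumps
    rw [Finset.filter_true_of_mem]
    · simp
    · intro m hm
      exact hcon m (Nat.lt_succ_iff.mp (Finset.mem_range.mp hm))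
  have := h (L + 1)
  omega

lemma eq_of_inf_ker_map {U U' : Submodule F W} (f : W →ₗ[F] W') (hle : U ≤ U')
    (h1 : U ⊓ LinearMap.ker f = U' ⊓ LinearMap.ker f) (h2 : U.map f = U'.map f) : U = U' := by
  apply le_antisymm hle
  intro u' hu'
  have : f u' ∈ U.map f := by
    rw [h2]; exact Submodule.mem_map_of_mem hu'
  obtain ⟨u, hu, hfu⟩ := this
  have hk : u' - u ∈ U' ⊓ LinearMap.ker f :=
    ⟨Submodule.sub_mem _ hu' (hle hu), by simp [LinearMap.mem_ker, hfu]⟩
  rw [← h1] at hk
  have := Submodule.add_mem _ hk.1 hu
  simpa using this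

/-- Joint injectivity bound. -/
lemma jumps_family {ι : Type} (f : ι → (W →ₗ[F] W')) (L : ℕ)
    (P : (ℕ → Submodule F W) → Prop) (P' : (ℕ → Submodule F W') → Prop)
    (hmono : ∀ c, P c → Monotone c)
    (h1 : ∀ c, P c → ∀ x, P (fun n => c n ⊓ LinearMap.ker (f x)))
    (h2 : ∀ c, P c → ∀ x, P' (fun n => (c n).map (f x)))
    (h3 : ∀ c', P' c' → ∀ n, jumps c' n ≤ L) (s : Finset ι) :
    ∀ c, P c → (∀ n, ∀ u ∈ c n, (∀ x ∈ s, f x u = 0) → u = 0) → ∀ n, jumps c n ≤ s.card * L := by
  induction s using Finset.induction_on with
  | empty =>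
    intro c hc h n
    have : jumps c n = 0 := by
      unfold jumps
      rw [Finset.card_eq_zero, Finset.filter_eq_empty_iff]
      intro m _
      simp only [ne_eq, not_not]
      have e : ∀ m, c m = ⊥ := by
        intro m
        rw [eq_bot_iff]
        intro u hu
        simp [h m u hu (by simp)]
      rw [e, e]
    omega
  | insert x s hx ih =>
    intro c hc h n
    rw [Finset.card_insert_of_notMem hx, add_mul, one_mul]
    refine le_trans (jumps_le_add (a := fun n => c n ⊓ LinearMap.ker (f x))
      (b := fun n => (c n).map (f x)) ?_ n) ?_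
    · intro m e1 e2
      exact eq_of_inf_ker_map (f x) (hmono c hc (Nat.le_succ m)) e1 e2
    · apply add_le_add
      · apply ih _ (h1 c hc x)
        intro m u hu hs
        apply h m u hu.1
        intro y hy
        rcases Finset.mem_insert.mp hy with rfl | hy
        · exact hu.2
        · exact hs y hy
      · exact h3 _ (h2 c hc x) n

end

end Pool.Agent.OntoPHP
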