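import Pool.Agent.OntoPHP.Design

set_option autoImplicit false
set_option linter.unusedSectionVars false
set_option linter.unusedVariables false

namespace Pool.Agent.OntoPHP

open Finset

section push

variable {A B I J F : Type} [Fintype A] [DecidableEq A] [Fintype B] [DecidableEq B]
  [Fintype I] [DecidableEq I] [Fintype J] [DecidableEq J] [Field F]

/-- Push a functional forward along embeddings. -/
noncomputable def push (f : I ↪ A) (g : J ↪ B) (φ : Finset (I × J) → F) : Finset (A × B) → F :=
  fun S => if S ⊆ Finset.univ.map (f.prodMap g) then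
    φ (Finset.univ.filter (fun e => (f.prodMap g) e ∈ S)) else 0

lemma push_map (f : I ↪ A) (g : J ↪ B) (φ : Finset (I × J) → F) (S₀ : Finset (I × J)) :
    push f g φ (S₀.map (f.prodMap g)) = φ S₀ := by
  unfold push
  rw [if_pos (Finset.map_subset_map.mpr (Finset.subset_univ _))]
  congr 1
  ext e
  simp only [Finset.mem_filter, Finset.mem_univ, true_and, Finset.mem_map']

lemma push_eq_zero (f : I ↪ A) (g : J ↪ B) (φ : Finset (I × J) → F) (S : Finset (A × B))
    (h : ¬ S ⊆ Finset.univ.map (f.prodMap g)) : push f g φ S = 0 := by
  unfold push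
  rw [if_neg h]

lemma exists_of_subset (f : I ↪ A) (g : J ↪ B) (S : Finset (A × B))
    (h : S ⊆ Finset.univ.map (f.prodMap g)) : ∃ S₀, S = Finset.map (f.prodMap g) S₀ := by
  refine ⟨Finset.univ.filter (fun e => (f.prodMap g) e ∈ S), ?_⟩
  ext x
  constructor
  · intro hx
    obtain ⟨e, _, he⟩ := Finset.mem_map.mp (h hx)
    exact Finset.mem_map.mpr ⟨e, by simp only [mem_filter, mem_univ, true_and]; rw [he]; exact hx, he⟩
  · intro hx
    obtain ⟨e, he, hex⟩ := Finset.mem_map.mp hx
    simp only [mem_filter, mem_univ, true_and] at he
    rw [← hex]; exact he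

lemma insert_map (f : I ↪ A) (g : J ↪ B) (i : I) (j : J) (S₀ : Finset (I × J)) :
    insert (f i, g j) (S₀.map (f.prodMap g)) = (insert (i, j) S₀).map (f.prodMap g) := by
  rw [Finset.map_insert]; rfl

lemma push_PD {d : ℕ} (f : I ↪ A) (g : J ↪ B) {φ : Finset (I × J) → F}
    (h : PD d Finset.univ Finset.univ φ) :
    PD d (Finset.univ.map f) (Finset.univ.map g) (push f g φ) := by
  refine ⟨?_, ?_, ?_, ?_⟩
  · have := push_map f g φ ∅
    rw [Finset.map_empty] at this
    rw [this, h.one]
  · intro S hS
    have hsub : S ⊆ Finset.univ.map (f.prodMap g) := by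
      by_contra hn
      exact hS (push_eq_zero f g φ S hn)
    obtain ⟨S₀, rfl⟩ := exists_of_subset f g S hsub
    rw [push_map] at hS
    obtain ⟨hm, _⟩ := h.supp S₀ hS
    refine ⟨?_, ?_⟩
    · intro e he e' he'
      obtain ⟨x, hx, rfl⟩ := Finset.mem_map.mp he
      obtain ⟨y, hy, rfl⟩ := Finset.mem_map.mp he'
      have := hm x hx y hy
      simpa using this
    · intro e he
      obtain ⟨x, hx, rfl⟩ := Finset.mem_map.mp he
      simp
  · intro S hS i hi
    obtain ⟨i₀, _, rfl⟩ := Finset.mem_map.mp hi
    unfold rd
    by_cases hsub : S ⊆ Finset.univ.map (f.prodMap g)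
    · obtain ⟨S₀, rfl⟩ := exists_of_subset f g S hsub
      rw [push_map]
      have h1 := h.row S₀ (by simpa using hS) i₀ (Finset.mem_univ _)
      unfold rd at h1
      rw [← h1]
      congr 1
      rw [← Finset.sum_subset (Finset.subset_univ (Finset.univ.map g))]
      · rw [Finset.sum_map]
        apply Finset.sum_congr rfl
        intro j _
        rw [insert_map, push_map]
      · intro b _ hb
        apply push_eq_zero
        intro hcon
        have := hcon (Finset.mem_insert_self _ _)
        obtain ⟨e, _, he⟩ := Finset.mem_map.mp this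
        apply hb
        simp only [Finset.mem_map, Finset.mem_univ, true_and]
        exact ⟨e.2, by have := congrArg Prod.snd he; simpa using this⟩
    · rw [push_eq_zero f g φ S hsub, Finset.sum_eq_zero]
      · simp
      · intro b _
        apply push_eq_zero
        intro hcon
        exact hsub (fun x hx => hcon (Finset.mem_insert_of_mem hx))
  · intro S hS j hj
    obtain ⟨j₀, _, rfl⟩ := Finset.mem_map.mp hj
    unfold cd
    by_cases hsub : S ⊆ Finset.univ.map (f.prodMap g)
    · obtain ⟨S₀, rfl⟩ := exists_of_subset f g S hsub
      rw [push_map]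
      have h1 := h.col S₀ (by simpa using hS) j₀ (Finset.mem_univ _)
      unfold cd at h1
      rw [← h1]
      congr 1
      rw [← Finset.sum_subset (Finset.subset_univ (Finset.univ.map f))]
      · rw [Finset.sum_map]
        apply Finset.sum_congr rfl
        intro i _
        rw [insert_map, push_map]
      · intro b _ hb
        apply push_eq_zero
        intro hcon
        have := hcon (Finset.mem_insert_self _ _)
        obtain ⟨e, _, he⟩ := Finset.mem_map.mp this
        apply hb
        simp only [Finset.mem_map, Finset.mem_univ, true_and]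
        exact ⟨e.1, by have := congrArg Prod.fst he; simpa using this⟩
    · rw [push_eq_zero f g φ S hsub, Finset.sum_eq_zero]
      · simp
      · intro b _
        apply push_eq_zero
        intro hcon
        exact hsub (fun x hx => hcon (Finset.mem_insert_of_mem hx))

end push

end Pool.Agent.OntoPHP
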