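import Pool.Agent.OntoPHP.Jumps

set_option autoImplicit false
set_option linter.unusedSectionVars false
set_option linter.unusedVariables false

namespace Pool.Agent.OntoPHP

open Finset
open scoped Classical

section

variable {F C : Type} [Field F] [Fintype C] {K : ℕ}

/-- Action of a permutation on functions of tuples. -/
def act (π : Equiv.Perm C) : ((Fin K → C) → F) →ₗ[F] ((Fin K → C) → F) where
  toFun u := fun i => u (fun t => π (i t))
  map_add' _ _ := rfl
  map_smul' _ _ := rfl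

@[simp] lemma act_apply (π : Equiv.Perm C) (u : (Fin K → C) → F) (i : Fin K → C) :
    act π u i = u (fun t => π (i t)) := rfl

/-- Colour preserving permutations fixing `Q`. -/
def Grp (χ : C → Bool) (Q : Finset C) (π : Equiv.Perm C) : Prop :=
  (∀ x, χ (π x) = χ x) ∧ ∀ x ∈ Q, π x = x

lemma Grp.mono {χ : C → Bool} {Q Q' : Finset C} (h : Q ⊆ Q') {π : Equiv.Perm C}
    (hπ : Grp χ Q' π) : Grp χ Q π := ⟨hπ.1, fun x hx => hπ.2 x (h hx)⟩

lemma Grp.inv {χ : C → Bool} {Q : Finset C} {π : Equiv.Perm C}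
    (hπ : Grp χ Q π) : Grp χ Q π⁻¹ := by
  refine ⟨fun x => ?_, fun x hx => ?_⟩
  · have := hπ.1 (π⁻¹ x)
    rw [show π (π⁻¹ x) = x from π.apply_symm_apply x] at this
    exact this.symm
  · have := hπ.2 x hx
    rw [Equiv.Perm.inv_eq_iff_eq]
    exact this.symm

lemma Grp.mul {χ : C → Bool} {Q : Finset C} {π σ : Equiv.Perm C}
    (hπ : Grp χ Q π) (hσ : Grp χ Q σ) : Grp χ Q (π * σ) := by
  refine ⟨fun x => ?_, fun x hx => ?_⟩
  · rw [Equiv.Perm.mul_apply, hπ.1, hσ.1]
  · rw [Equiv.Perm.mul_apply, hσ.2 x hx, hπ.2 x hx]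

lemma Grp.one {χ : C → Bool} {Q : Finset C} : Grp χ Q 1 := ⟨fun _ => rfl, fun _ _ => rfl⟩

lemma Grp.swap {χ : C → Bool} {Q : Finset C} {x y : C} (hx : x ∉ Q) (hy : y ∉ Q)
    (hχ : χ x = χ y) : Grp χ Q (Equiv.swap x y) := by
  refine ⟨fun z => ?_, fun z hz => ?_⟩
  · by_cases h1 : z = x
    · subst h1; rw [Equiv.swap_apply_left, hχ]
    · by_cases h2 : z = y
      · subst h2; rw [Equiv.swap_apply_right, hχ]
      · rw [Equiv.swap_apply_of_ne_of_ne h1 h2]
  · apply Equiv.swap_apply_of_ne_of_ne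
    · rintro rfl; exact hx hz
    · rintro rfl; exact hy hz

/-- Invariant subspace. -/
def Inv (χ : C → Bool) (Q : Finset C) (U : Submodule F ((Fin K → C) → F)) : Prop :=
  ∀ π, Grp χ Q π → ∀ u ∈ U, act π u ∈ U

lemma Inv.mono {χ : C → Bool} {Q Q' : Finset C} (h : Q ⊆ Q')
    {U : Submodule F ((Fin K → C) → F)} (hU : Inv χ Q U) : Inv χ Q' U :=
  fun π hπ u hu => hU π (hπ.mono h) u hu

/-- Moving one injective tuple to another. -/
lemma exists_perm {χ : C → Bool} {Q : Finset C} {i₀ i : Fin K → C}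
    (hi₀ : Function.Injective i₀) (hi : Function.Injective i)
    (hQ₀ : ∀ t, i₀ t ∉ Q) (hQ : ∀ t, i t ∉ Q) (hχ : ∀ t, χ (i₀ t) = χ (i t)) :
    ∃ π, Grp χ Q π ∧ ∀ t, π (i₀ t) = i t := by
  have key : ∀ r, r ≤ K → ∃ π, Grp χ Q π ∧ ∀ t : Fin K, t.1 < r → π (i₀ t) = i t := by
    intro r
    induction r with
    | zero => intro _; exact ⟨1, Grp.one, fun t ht => absurd ht (Nat.not_lt_zero _)⟩
    | succ r ih =>
      intro hr
      obtain ⟨π, hπ, hπt⟩ := ih (by omega)
      let r' : Fin K := ⟨r, by omega⟩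
      have hy : π (i₀ r') ∉ Q := by
        intro hmem
        have h1 := hπ.2 _ hmem
        have h2 := π.injective h1
        rw [h2] at hmem
        exact hQ₀ _ hmem
      have hχy : χ (π (i₀ r')) = χ (i r') := by rw [hπ.1, hχ]
      refine ⟨Equiv.swap (π (i₀ r')) (i r') * π, (Grp.swap hy (hQ _) hχy).mul hπ, ?_⟩
      intro t ht
      rw [Equiv.Perm.mul_apply]
      by_cases htr : t.1 < r
      · rw [hπt t htr]
        apply Equiv.swap_apply_of_ne_of_ne
        · intro h
          have : π (i₀ t) = π (i₀ r') := by rw [hπt t htr, h]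
          have := hi₀ (π.injective this)
          rw [this] at htr
          exact lt_irrefl _ htr
        · intro h
          have := hi h
          rw [this] at htr
          exact lt_irrefl _ htr
      · have : t = r' := Fin.ext (by simp only [r']; omega)
        subst this
        rw [Equiv.swap_apply_left]
  obtain ⟨π, h1, h2⟩ := key K le_rfl
  exact ⟨π, h1, fun t => h2 t t.2⟩

/-- Difference operators. -/
noncomputable def op (x z : C) : ((Fin K → C) → F) →ₗ[F] ((Fin K → C) → F) :=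
  LinearMap.id - act (Equiv.swap x z)

/-- Iterated differences. -/
noncomputable def Dl : List (C × C) → ((Fin K → C) → F) →ₗ[F] ((Fin K → C) → F)
  | [] => LinearMap.id
  | p :: l => (op p.1 p.2).comp (Dl l)

lemma Dl_cons (p : C × C) (l : List (C × C)) (u : (Fin K → C) → F) (g : Fin K → C) :
    Dl (p :: l) u g = Dl l u g - Dl l u (fun t => Equiv.swap p.1 p.2 (g t)) := rfl

lemma Dl_mem {χ : C → Bool} {Q : Finset C} {U : Submodule F ((Fin K → C) → F)}
    (hU : Inv χ Q U) (l : List (C × C)) (hl : ∀ p ∈ l, p.1 ∉ Q ∧ p.2 ∉ Q ∧ χ p.1 = χ p.2)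
    {u : (Fin K → C) → F} (hu : u ∈ U) : Dl l u ∈ U := by
  induction l with
  | nil => exact hu
  | cons p l ih =>
    have h1 := ih (fun q hq => hl q (List.mem_cons_of_mem _ hq))
    obtain ⟨a, b, c⟩ := hl p List.mem_cons_self
    have h2 := hU _ (Grp.swap a b c) _ h1
    exact Submodule.sub_mem _ h1 h2

lemma Dl_vanish {Zs : Finset C} (l : List (C × C)) (u : (Fin K → C) → F) (z : C)
    (hz : ∀ p ∈ l, p.1 ≠ z ∧ p.2 ≠ z) (hu : ∀ g : Fin K → C, z ∈ Set.range g → u g = 0) :
    ∀ g : Fin K → C, z ∈ Set.range g → Dl l u g = 0 := by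
  induction l with
  | nil => exact hu
  | cons p l ih =>
    intro g hg
    have h1 := ih (fun q hq => hz q (List.mem_cons_of_mem _ hq))
    rw [Dl_cons, h1 g hg, h1 _ ?_, sub_zero]
    obtain ⟨t, ht⟩ := hg
    obtain ⟨a, b⟩ := hz p List.mem_cons_self
    exact ⟨t, by simp only [ht]; exact Equiv.swap_apply_of_ne_of_ne (Ne.symm a) (Ne.symm b)⟩

lemma Dl_apply (Zs : Finset C) (l : List (C × C)) (hnd : (l.map Prod.snd).Nodup)
    (hl : ∀ p ∈ l, p.1 ∉ Zs ∧ p.2 ∈ Zs) (u : (Fin K → C) → F)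
    (hu : ∀ g : Fin K → C, ∀ z ∈ Zs, z ∈ Set.range g → u g = 0)
    (g : Fin K → C) (hg : ∀ z ∈ Zs, z ∉ Set.range g) :
    Dl l u g = if ∀ p ∈ l, p.1 ∈ Set.range g then u g else 0 := by
  induction l with
  | nil => simp [Dl]
  | cons p l ih =>
    rw [List.map_cons, List.nodup_cons] at hnd
    have ih' := ih hnd.2 (fun q hq => hl q (List.mem_cons_of_mem _ hq))
    obtain ⟨hp1, hp2⟩ := hl p List.mem_cons_self
    rw [Dl_cons, ih']
    by_cases hx : p.1 ∈ Set.range g
    · have h0 : Dl l u (fun t => Equiv.swap p.1 p.2 (g t)) = 0 := by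
        refine Dl_vanish (Zs := Zs) l u p.2 ?_ (fun g hg => hu g _ hp2 hg) _ ?_
        · intro q hq
          obtain ⟨hq1, hq2⟩ := hl q (List.mem_cons_of_mem _ hq)
          refine ⟨fun h => hq1 (h ▸ hp2), fun h => hnd.1 ?_⟩
          rw [← h]
          exact List.mem_map_of_mem hq
        · obtain ⟨t, ht⟩ := hx
          exact ⟨t, by simp only [ht, Equiv.swap_apply_left]⟩
      rw [h0, sub_zero]
      simp only [List.forall_mem_cons, hx, true_and]
    · have h0 : (fun t => Equiv.swap p.1 p.2 (g t)) = g := by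
        funext t
        apply Equiv.swap_apply_of_ne_of_ne
        · intro h; exact hx ⟨t, h⟩
        · intro h; exact hg _ hp2 ⟨t, h⟩
      rw [h0, ih', sub_self]
      simp only [List.forall_mem_cons, hx, false_and, if_false]

end

end Pool.Agent.OntoPHP
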